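import Pool.Agent.Lib.MP_f5167d_co.KM.Basic

set_option autoImplicit false

namespace Pool.MP_f5167d_co.KM

open Finset Classical

variable {V : Type} [Fintype V] (I : Inst V)

/-- ROW acc_path. The path of a class of level `i` down to an open class, one level per step.
Induction on `i`: if `Lev f F (i + 1)` then (mem_acc_succ, as `F` is not in `acc f i`) there are
`v₀`, `f v₀ = F`, and `d ∈ acc f i` with `Free f v₀ d`; the level of `d` is exactly `i` (a level
`j < i` of `d` would give `F ∈ acc f (j + 1)`). Put `F, v₀` in front of the path of `d`. Simple,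
because the levels are different (lev_unique). -/
theorem acc_path {f : V → ℕ} (hf : I.Col f) (y : V) {F i : ℕ} (h : I.Lev f F i) :
    ∃ (c : ℕ → ℕ) (v : ℕ → V), I.Path f c v i ∧ c 0 = F ∧
      ∀ t ≤ i, I.Lev f (c t) (i - t) := by
  induction i generalizing F with
  | zero =>
    refine ⟨fun _ => F, fun _ => y, ⟨fun i hi => absurd hi (Nat.not_lt_zero _), ?_⟩, rfl, ?_⟩
    · intro i hi j hj _
      omega
    · intro t ht
      have : t = 0 := by omega
      subst this
      exact h
  | succ i ih =>
    have h1 := (mem_acc_succ I).1 h.1
    have h2 : F ∉ I.acc f i := h.2 i (Nat.lt_succ_self i)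
    obtain ⟨v₀, hv, d, hd, hfree⟩ := h1.2.resolve_left h2
    have hlev : I.Lev f d i := by
      refine ⟨hd, fun j hj hdj => ?_⟩
      have h3 := mem_acc_of_free I hf hdj hfree
      rw [hv] at h3
      exact h.2 (j + 1) (by omega) h3
    obtain ⟨c, v, hP, hc0, hL⟩ := ih hlev
    have hlev' : ∀ t ≤ i + 1, I.Lev f ((fun t => if t = 0 then F else c (t - 1)) t)
        (i + 1 - t) := by
      intro t ht
      rcases Nat.eq_zero_or_pos t with h0 | h0
      · subst h0
        simpa using h
      · have h3 := hL (t - 1) (by omega)
        have e : i - (t - 1) = i + 1 - t := by omega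
        rw [e] at h3
        have hne : t ≠ 0 := by omega
        simpa [hne] using h3
    refine ⟨fun t => if t = 0 then F else c (t - 1), fun t => if t = 0 then v₀ else v (t - 1),
      ⟨?_, ?_⟩, by simp, hlev'⟩
    · intro t ht
      rcases Nat.eq_zero_or_pos t with h0 | h0
      · subst h0
        refine ⟨by simpa using hv, ?_⟩
        simpa [hc0] using hfree
      · have hne : t ≠ 0 := by omega
        have h3 := hP.1 (t - 1) (by omega)
        have e : t - 1 + 1 = t := by omega
        rw [e] at h3
        simpa [hne] using h3
    · intro a ha b hb hab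
      have h3 := hlev' a ha
      have h4 := hlev' b hb
      have hab' : (fun t => if t = 0 then F else c (t - 1)) a
          = (fun t => if t = 0 then F else c (t - 1)) b := hab
      rw [hab'] at h3
      have h5 := lev_unique I h3 h4
      omega

end Pool.MP_f5167d_co.KM
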