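import Pool.Agent.Lib.MP_f5167d_co.KM.Defs

set_option autoImplicit false

namespace Pool.MP_f5167d_co.KM

open Finset Classical

variable {V : Type} [Fintype V] (I : Inst V)

theorem mem_cls {f : V → ℕ} {c : ℕ} {v : V} : v ∈ cls f c ↔ f v = c := by
  simp [cls]

theorem mem_vs {f : V → ℕ} {X : Finset ℕ} {v : V} : v ∈ vs f X ↔ f v ∈ X := by
  simp [vs]

theorem mem_S {f : V → ℕ} {P : ℕ} {v w : V} :
    v ∈ I.S f P w ↔ f v ∈ I.R f P ∧ I.Solo f v w := by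
  simp [Inst.S]

theorem mem_Pal {c : ℕ} : c ∈ I.Pal ↔ ∃ v, c ∈ I.L v := by
  simp [Inst.Pal]

theorem L_sub_Pal (v : V) : I.L v ⊆ I.Pal := fun c hc => (mem_Pal I).2 ⟨v, hc⟩

theorem col_mem_Pal {f : V → ℕ} (hf : I.Col f) (v : V) : f v ∈ I.Pal :=
  L_sub_Pal I v (hf.1 v)

theorem free_mem_Pal {f : V → ℕ} {v : V} {c : ℕ} (h : I.Free f v c) : c ∈ I.Pal :=
  L_sub_Pal I v h.1

theorem acc_sub_Pal (f : V → ℕ) (i : ℕ) : I.acc f i ⊆ I.Pal := by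
  cases i with
  | zero => exact filter_subset _ _
  | succ i => exact filter_subset _ _

theorem mem_acc_zero {f : V → ℕ} {c : ℕ} :
    c ∈ I.acc f 0 ↔ c ∈ I.Pal ∧ (cls f c).card < I.q := by
  rw [Inst.acc, mem_filter]

theorem mem_acc_succ {f : V → ℕ} {c : ℕ} {i : ℕ} :
    c ∈ I.acc f (i + 1) ↔ c ∈ I.Pal ∧ (c ∈ I.acc f i ∨
      ∃ v, f v = c ∧ ∃ d ∈ I.acc f i, I.Free f v d) := by
  rw [Inst.acc, mem_filter]

theorem acc_succ (f : V → ℕ) (i : ℕ) : I.acc f i ⊆ I.acc f (i + 1) := by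
  intro c hc
  rw [mem_acc_succ]
  exact ⟨acc_sub_Pal I f i hc, Or.inl hc⟩

theorem acc_mono (f : V → ℕ) {i j : ℕ} (h : i ≤ j) : I.acc f i ⊆ I.acc f j := by
  induction h with
  | refl => exact Subset.refl _
  | step _ ih => exact ih.trans (acc_succ I f _)

theorem mem_acc_of_free {f : V → ℕ} (hf : I.Col f) {v : V} {d i : ℕ} (hd : d ∈ I.acc f i)
    (h : I.Free f v d) : f v ∈ I.acc f (i + 1) := by
  rw [mem_acc_succ]
  exact ⟨col_mem_Pal I hf v, Or.inr ⟨v, rfl, d, hd, h⟩⟩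

theorem mem_T {f : V → ℕ} {c : ℕ} : c ∈ I.T f ↔ ∃ i, c ∈ I.acc f i := by
  rw [Inst.T, mem_filter]
  constructor
  · exact fun h => h.2
  · rintro ⟨i, hi⟩
    exact ⟨acc_sub_Pal I f i hi, i, hi⟩

theorem T_sub_Pal (f : V → ℕ) : I.T f ⊆ I.Pal := filter_subset _ _

theorem acc_sub_T (f : V → ℕ) (i : ℕ) : I.acc f i ⊆ I.T f := fun _ h => (mem_T I).2 ⟨i, h⟩

theorem exists_lev {f : V → ℕ} {c : ℕ} (h : c ∈ I.T f) : ∃ i, I.Lev f c i := by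
  rw [mem_T] at h
  exact ⟨Nat.find h, Nat.find_spec h, fun j hj => Nat.find_min h hj⟩

theorem exists_lev_le {f : V → ℕ} {c i : ℕ} (h : c ∈ I.acc f i) :
    ∃ j ≤ i, I.Lev f c j := by
  have h' : ∃ j, c ∈ I.acc f j := ⟨i, h⟩
  exact ⟨Nat.find h', Nat.find_min' h' h, Nat.find_spec h', fun j hj => Nat.find_min h' hj⟩

theorem lev_unique {f : V → ℕ} {c i j : ℕ} (hi : I.Lev f c i) (hj : I.Lev f c j) : i = j := by
  rcases lt_trichotomy i j with h | h | h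
  · exact absurd hi.1 (hj.2 i h)
  · exact h
  · exact absurd hj.1 (hi.2 j h)

theorem T_of_free {f : V → ℕ} (hf : I.Col f) {v : V} {d : ℕ} (hd : d ∈ I.T f)
    (h : I.Free f v d) : f v ∈ I.T f := by
  obtain ⟨i, hi⟩ := (mem_T I).1 hd
  exact acc_sub_T I f _ (mem_acc_of_free I hf hi h)

theorem mem_R {f : V → ℕ} {P c : ℕ} :
    c ∈ I.R f P ↔ c ∈ I.Pal ∧ Relation.ReflTransGen (I.Arc f) P c := by
  rw [Inst.R, mem_filter]

theorem R_sub_Pal (f : V → ℕ) (P : ℕ) : I.R f P ⊆ I.Pal := filter_subset _ _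

theorem near_nonempty {f : V → ℕ} {P : ℕ} (h : I.Near f P) : ∃ y, f y = P := by
  have h1 : (cls f P).card ≠ 0 := by rw [h.2.1]; omega
  obtain ⟨y, hy⟩ := Finset.card_ne_zero.1 h1
  exact ⟨y, mem_cls.1 hy⟩

theorem P_mem_Pal {f : V → ℕ} {P : ℕ} (h : I.Near f P) : P ∈ I.Pal := by
  obtain ⟨y, hy⟩ := near_nonempty I h
  rw [← hy]
  exact col_mem_Pal I h.1 y

theorem P_mem_R {f : V → ℕ} {P : ℕ} (h : I.Near f P) : P ∈ I.R f P := by
  rw [mem_R]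
  exact ⟨P_mem_Pal I h, Relation.ReflTransGen.refl⟩

theorem R_closed {f : V → ℕ} {P : ℕ} {v : V} {d : ℕ} (hv : f v ∈ I.R f P)
    (h : I.Free f v d) : d ∈ I.R f P := by
  rw [mem_R] at hv ⊢
  exact ⟨free_mem_Pal I h, hv.2.tail ⟨v, rfl, h⟩⟩

theorem mem_N {f : V → ℕ} {i : ℕ} {v : V} :
    v ∈ I.N f i ↔ (i = 0 ∨ f v ∉ I.acc f i) ∧ ∃ d ∈ I.acc f i, I.Free f v d := by
  simp [Inst.N]

theorem mem_Priv {f : V → ℕ} {i W : ℕ} {v : V} :
    v ∈ I.Priv f i W ↔ v ∈ I.N f i ∧ ∀ d ∈ I.acc f i, I.Free f v d → d = W := by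
  simp [Inst.Priv]

theorem path_reach {f : V → ℕ} {c : ℕ → ℕ} {v : ℕ → V} {l : ℕ} (h : I.Path f c v l) :
    ∀ i ≤ l, Relation.ReflTransGen (I.Arc f) (c 0) (c i) := by
  intro i
  induction i with
  | zero => exact fun _ => Relation.ReflTransGen.refl
  | succ i ih =>
    intro hi
    exact (ih (by omega)).tail ⟨v i, (h.1 i (by omega)).1, (h.1 i (by omega)).2⟩

theorem full_card {f : V → ℕ} {P c : ℕ} (h : I.Near f P) (hc : c ∈ I.Pal) (hP : c ≠ P)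
    (h0 : c ∉ I.acc f 0) : (cls f c).card = I.q := by
  have h1 := h.2.2 c hP
  rw [mem_acc_zero] at h0
  have h2 : ¬ (cls f c).card < I.q := fun h3 => h0 ⟨hc, h3⟩
  omega

theorem acc_zero_le (f : V → ℕ) (i : ℕ) : I.acc f 0 ⊆ I.acc f i := acc_mono I f (Nat.zero_le i)

theorem lev_not_mem_zero {f : V → ℕ} {c i : ℕ} (h : I.Lev f c i) (hi : i ≠ 0) :
    c ∉ I.acc f 0 := h.2 0 (Nat.pos_of_ne_zero hi)

end Pool.MP_f5167d_co.KM
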