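import Pool.Agent.Lib.MP_f5167d_co.KM.Defs2

set_option autoImplicit false

namespace Pool.MP_f5167d_co.KM

open Finset Classical

variable {V : Type} [Fintype V] (I : Inst V)

/-- ROW dcount. Double counting of the edges between two sets of classes. -/
theorem dg_comm (f : V → ℕ) (X Y : Finset ℕ) :
    ∑ w ∈ vs f X, I.dg f Y w = ∑ y ∈ vs f Y, I.dg f X y := by
  have h1 : ∀ (A B : Finset ℕ), ∑ w ∈ vs f A, I.dg f B w =
      ∑ w : V, ∑ x : V, if (f w ∈ A ∧ I.G.Adj w x ∧ f x ∈ B) then 1 else 0 := by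
    intro A B
    rw [vs, Finset.sum_filter]
    refine Finset.sum_congr rfl fun w _ => ?_
    by_cases hw : f w ∈ A
    · rw [if_pos hw, Inst.dg, Finset.card_filter]
      refine Finset.sum_congr rfl fun x _ => ?_
      simp [hw]
    · rw [if_neg hw]
      simp [hw]
  rw [h1 X Y, h1 Y X, Finset.sum_comm]
  refine Finset.sum_congr rfl fun x _ => Finset.sum_congr rfl fun w _ => ?_
  have h2 : (f w ∈ X ∧ I.G.Adj w x ∧ f x ∈ Y) ↔ (f x ∈ Y ∧ I.G.Adj x w ∧ f w ∈ X) := by
    constructor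
    · rintro ⟨a, b, c⟩; exact ⟨c, b.symm, a⟩
    · rintro ⟨a, b, c⟩; exact ⟨c, b.symm, a⟩
  simp only [h2]

/-- ROW dcount (second part). Each `w` with `S f P w ≠ ∅` distributes `K` in equal parts to the members
of `S f P w`. (`y ∈ S f P w` iff `f y ∈ R f P` and `Solo f y w`; `w ∈ sg f y` iff `f w ∈ T f` and
`Solo f y w`.) -/
theorem solo_sum (f : V → ℕ) (P : ℕ) (K : ℚ) :
    ∑ _w ∈ (vs f (I.T f)).filter (fun w => I.S f P w ≠ ∅), K =
      ∑ y ∈ vs f (I.R f P), ∑ w ∈ I.sg f y, K / ((I.S f P w).card : ℚ) := by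
  have h1 : ∑ y ∈ vs f (I.R f P), ∑ w ∈ I.sg f y, K / ((I.S f P w).card : ℚ) =
      ∑ y : V, ∑ w : V, if (f y ∈ I.R f P ∧ f w ∈ I.T f ∧ I.Solo f y w) then
        K / ((I.S f P w).card : ℚ) else 0 := by
    rw [vs, Finset.sum_filter]
    refine Finset.sum_congr rfl fun y _ => ?_
    by_cases hy : f y ∈ I.R f P
    · rw [if_pos hy, Inst.sg, Finset.sum_filter]
      refine Finset.sum_congr rfl fun w _ => ?_
      simp [hy]
    · rw [if_neg hy]
      simp [hy]
  rw [h1, Finset.sum_comm, vs, Finset.filter_filter, Finset.sum_filter]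
  refine Finset.sum_congr rfl fun w _ => ?_
  by_cases hw : f w ∈ I.T f
  · have h2 : (∑ y : V, if (f y ∈ I.R f P ∧ f w ∈ I.T f ∧ I.Solo f y w) then
        K / ((I.S f P w).card : ℚ) else 0) =
        ∑ y ∈ I.S f P w, K / ((I.S f P w).card : ℚ) := by
      rw [Inst.S, Finset.sum_filter]
      refine Finset.sum_congr rfl fun y _ => ?_
      simp [hw]
    rw [h2, Finset.sum_const, nsmul_eq_mul]
    by_cases hS : I.S f P w = ∅
    · simp [hS]
    · have h3 : ((I.S f P w).card : ℚ) ≠ 0 := by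
        rw [Nat.cast_ne_zero]
        exact fun h => hS (Finset.card_eq_zero.1 h)
      rw [if_pos ⟨hw, hS⟩, mul_div_cancel₀ _ h3]
  · rw [if_neg (fun h => hw h.1)]
    symm
    apply Finset.sum_eq_zero
    intro y _
    rw [if_neg (fun h => hw h.2.1)]

end Pool.MP_f5167d_co.KM
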