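import Pool.Agent.Lib.MP_f5167d_co.KM.Basic

set_option autoImplicit false

namespace Pool.MP_f5167d_co.KM

open Finset Classical

variable {V : Type} [Fintype V] (I : Inst V)

/-- The solo neighbours of `y` in accessible classes. -/
noncomputable def Inst.sg (f : V → ℕ) (y : V) : Finset V :=
  univ.filter (fun w => f w ∈ I.T f ∧ I.Solo f y w)

/-- The non-solo neighbours of `y` in accessible classes. -/
noncomputable def Inst.ns (f : V → ℕ) (y : V) : Finset V :=
  univ.filter (fun v => I.G.Adj y v ∧ f v ∈ I.T f ∧ ¬ I.Solo f y v)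

theorem mem_sg {f : V → ℕ} {y w : V} : w ∈ I.sg f y ↔ f w ∈ I.T f ∧ I.Solo f y w := by
  simp [Inst.sg]

theorem mem_ns {f : V → ℕ} {y v : V} :
    v ∈ I.ns f y ↔ I.G.Adj y v ∧ f v ∈ I.T f ∧ ¬ I.Solo f y v := by
  simp [Inst.ns]

end Pool.MP_f5167d_co.KM
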