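import Pool.Agent.Lib.MP_f5167d_co.KM.RT
import Pool.Agent.Lib.MP_f5167d_co.KM.Defs2

set_option autoImplicit false

namespace Pool.MP_f5167d_co.KM

open Finset Classical

variable {V : Type} [Fintype V] (I : Inst V)

theorem card_vs_sum (f : V → ℕ) (X : Finset ℕ) : (vs f X).card = ∑ c ∈ X, (cls f c).card := by
  have h : vs f X = X.biUnion (cls f) := by
    ext v
    rw [mem_vs, mem_biUnion]
    constructor
    · exact fun hv => ⟨f v, hv, mem_cls.2 rfl⟩
    · rintro ⟨c, hc, hv⟩
      rw [mem_cls.1 hv]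
      exact hc
  rw [h]
  apply card_biUnion
  intro a _ b _ hab
  rw [Function.onFun, disjoint_left]
  intro v h1 h2
  exact hab ((mem_cls.1 h1).symm.trans (mem_cls.1 h2))

theorem sizes {f : V → ℕ} {P : ℕ} (h : I.Near f P) :
    (vs f (I.R f P)).card = (I.R f P).card * I.q + 1 ∧
    (vs f (I.J f P)).card = (I.J f P).card * I.q ∧
    (vs f (I.T f)).card + (vs f (I.R f P)).card + (vs f (I.J f P)).card = Fintype.card V ∧
    (I.T f).card + (I.R f P).card + (I.J f P).card = I.Pal.card ∧
    (I.R f P).card + (I.J f P).card < I.k := by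
  have hPR : P ∈ I.R f P := P_mem_R I h
  have hdTR : Disjoint (I.T f) (I.R f P) := by
    rw [disjoint_right]
    exact fun c hc => R_disj_T I h hc
  have hJ : ∀ c, c ∈ I.J f P ↔ c ∈ I.Pal ∧ c ∉ I.T f ∧ c ∉ I.R f P := by
    intro c
    rw [Inst.J, mem_sdiff, mem_sdiff, and_assoc]
  have hRf : ∀ c ∈ (I.R f P).erase P, (cls f c).card = I.q := by
    intro c hc
    obtain ⟨h1, h2⟩ := mem_erase.1 hc
    refine full_card I h (R_sub_Pal I f P h2) h1 ?_
    exact fun h3 => R_disj_T I h h2 (acc_sub_T I f 0 h3)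
  have hR : (vs f (I.R f P)).card = (I.R f P).card * I.q + 1 := by
    rw [card_vs_sum, ← add_sum_erase _ _ hPR, sum_congr rfl hRf, sum_const, smul_eq_mul, h.2.1,
      card_erase_of_mem hPR]
    have h1 : 1 ≤ (I.R f P).card := card_pos.2 ⟨P, hPR⟩
    obtain ⟨r, hr⟩ := Nat.exists_eq_add_of_le h1
    rw [hr]
    simp only [Nat.add_sub_cancel_left]
    ring
  have hJf : ∀ c ∈ I.J f P, (cls f c).card = I.q := by
    intro c hc
    obtain ⟨h1, h2, h3⟩ := (hJ c).1 hc
    refine full_card I h h1 ?_ (fun h4 => h2 (acc_sub_T I f 0 h4))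
    rintro rfl
    exact h3 hPR
  have hJc : (vs f (I.J f P)).card = (I.J f P).card * I.q := by
    rw [card_vs_sum, sum_congr rfl hJf, sum_const, smul_eq_mul]
  have hdJ : Disjoint (I.T f ∪ I.R f P) (I.J f P) := by
    rw [disjoint_right]
    intro c hc
    obtain ⟨_, h2, h3⟩ := (hJ c).1 hc
    rw [mem_union]
    rintro (h4 | h4)
    · exact h2 h4
    · exact h3 h4
  have hPal : (I.T f ∪ I.R f P) ∪ I.J f P = I.Pal := by
    ext c
    rw [mem_union, mem_union, hJ]
    constructor
    · rintro ((h1 | h1) | h1)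
      · exact T_sub_Pal I f h1
      · exact R_sub_Pal I f P h1
      · exact h1.1
    · intro h1
      by_cases h2 : c ∈ I.T f
      · exact Or.inl (Or.inl h2)
      · by_cases h3 : c ∈ I.R f P
        · exact Or.inl (Or.inr h3)
        · exact Or.inr ⟨h1, h2, h3⟩
  have hcard : (I.T f).card + (I.R f P).card + (I.J f P).card = I.Pal.card := by
    rw [← hPal, card_union_of_disjoint hdJ, card_union_of_disjoint hdTR]
  have hV : (vs f (I.T f)).card + (vs f (I.R f P)).card + (vs f (I.J f P)).card =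
      Fintype.card V := by
    rw [card_vs_sum, card_vs_sum, card_vs_sum, ← sum_union hdTR, ← sum_union hdJ, hPal,
      ← card_vs_sum]
    have : vs f I.Pal = univ := by
      ext v
      rw [mem_vs]
      simp [col_mem_Pal I h.1 v]
    rw [this, card_univ]
  refine ⟨hR, hJc, hV, hcard, ?_⟩
  have hn := I.hn
  by_contra hcon
  have h1 : I.k ≤ (I.R f P).card + (I.J f P).card := by omega
  have h2 : I.k * I.q ≤ ((I.R f P).card + (I.J f P).card) * I.q := Nat.mul_le_mul_right _ h1
  rw [add_mul] at h2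
  omega

end Pool.MP_f5167d_co.KM
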