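import Pool.Agent.Lib.MP_f5167d_co.KM.RT
import Pool.Agent.Lib.MP_f5167d_co.KM.Defs2

set_option autoImplicit false

namespace Pool.MP_f5167d_co.KM

open Finset Classical

variable {V : Type} [Fintype V] (I : Inst V)

/-- Splitting a list along the palette `T ∪ R ∪ J`. -/
theorem card_L_le (f : V → ℕ) (P : ℕ) (z : V) :
    I.k ≤ (I.R f P).card + (I.J f P).card + ((I.L z).filter (fun c => c ∈ I.T f)).card := by
  have hsub : I.L z ⊆ (I.R f P ∪ I.J f P) ∪ (I.L z).filter (fun c => c ∈ I.T f) := by
    intro c hc
    rw [mem_union, mem_union, mem_filter, Inst.J, mem_sdiff, mem_sdiff]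
    have hP := L_sub_Pal I z hc
    by_cases hT : c ∈ I.T f
    · exact Or.inr ⟨hc, hT⟩
    · by_cases hR : c ∈ I.R f P
      · exact Or.inl (Or.inl hR)
      · exact Or.inl (Or.inr ⟨⟨hP, hT⟩, hR⟩)
  have h1 := card_le_card hsub
  have h2 := card_union_le (I.R f P ∪ I.J f P) ((I.L z).filter (fun c => c ∈ I.T f))
  have h3 := card_union_le (I.R f P) (I.J f P)
  rw [I.hk z] at h1
  omega

/-- ROW zw_local. For `z` in a class of `J`: no accessible class is free for `z` (T_of_free), so every
class in `L z ∩ T` has a neighbour of `z`; `L z ⊆ Pal = T ∪ R ∪ J`. -/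
theorem z_local {f : V → ℕ} {P : ℕ} (h : I.Near f P) {z : V} (hz : f z ∈ I.J f P) :
    I.k ≤ (I.R f P).card + (I.J f P).card + I.dg f (I.T f) z := by
  have h0 := card_L_le I f P z
  have h1 : ((I.L z).filter (fun c => c ∈ I.T f)).card ≤ I.dg f (I.T f) z := by
    have hsub : (I.L z).filter (fun c => c ∈ I.T f) ⊆
        (univ.filter (fun x => I.G.Adj z x ∧ f x ∈ I.T f)).image f := by
      intro c hc
      rw [mem_filter] at hc
      have hzT : f z ∉ I.T f := by
        rw [Inst.J, mem_sdiff, mem_sdiff] at hz
        exact hz.1.2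
      have hne : f z ≠ c := by
        intro e
        exact hzT (e ▸ hc.2)
      have hnf : ¬ I.Free f z c := fun hf => hzT (T_of_free I h.1 hc.2 hf)
      have hex : ∃ x, I.G.Adj z x ∧ f x = c := by
        by_contra hcon
        exact hnf ⟨hc.1, hne, fun x hx e => hcon ⟨x, hx, e⟩⟩
      obtain ⟨x, hx, hxc⟩ := hex
      rw [mem_image]
      refine ⟨x, ?_, hxc⟩
      rw [mem_filter]
      exact ⟨mem_univ _, hx, hxc.symm ▸ hc.2⟩
    exact (card_le_card hsub).trans card_image_le
  omega

/-- ROW zw_local (second part). For `w` in a class of `T`: the degree, and: each class in `L w ∩ T`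
is `f w`, or free for `w`, or has a neighbour of `w`. -/
theorem w_local {f : V → ℕ} {P : ℕ} (h : I.Near f P) {w : V} (hw : f w ∈ I.T f) :
    I.dg f (I.R f P) w + I.dg f (I.J f P) w + I.dg f (I.T f) w < I.k ∧
    I.k ≤ (I.R f P).card + (I.J f P).card + (I.dg f (I.T f) w + I.p f w + 1) := by
  constructor
  · have hRJ : Disjoint (univ.filter (fun x => I.G.Adj w x ∧ f x ∈ I.R f P))
        (univ.filter (fun x => I.G.Adj w x ∧ f x ∈ I.J f P)) := by
      rw [Finset.disjoint_left]
      intro x h1 h2
      rw [mem_filter] at h1 h2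
      have h3 := h2.2.2
      rw [Inst.J, mem_sdiff] at h3
      exact h3.2 h1.2.2
    have hT : Disjoint (univ.filter (fun x => I.G.Adj w x ∧ f x ∈ I.R f P) ∪
        univ.filter (fun x => I.G.Adj w x ∧ f x ∈ I.J f P))
        (univ.filter (fun x => I.G.Adj w x ∧ f x ∈ I.T f)) := by
      rw [Finset.disjoint_left]
      intro x h1 h2
      rw [mem_union, mem_filter, mem_filter] at h1
      rw [mem_filter] at h2
      rcases h1 with h1 | h1
      · exact R_disj_T I h h1.2.2 h2.2.2
      · have h3 := h1.2.2
        rw [Inst.J, mem_sdiff, mem_sdiff] at h3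
        exact h3.1.2 h2.2.2
    have e1 := card_union_of_disjoint hRJ
    have e2 := card_union_of_disjoint hT
    have hsub : (univ.filter (fun x => I.G.Adj w x ∧ f x ∈ I.R f P) ∪
        univ.filter (fun x => I.G.Adj w x ∧ f x ∈ I.J f P)) ∪
        univ.filter (fun x => I.G.Adj w x ∧ f x ∈ I.T f) ⊆ univ.filter (fun x => I.G.Adj w x) := by
      intro x hx
      rw [mem_union, mem_union, mem_filter, mem_filter, mem_filter] at hx
      rw [mem_filter]
      rcases hx with (hx | hx) | hx
      · exact ⟨mem_univ _, hx.2.1⟩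
      · exact ⟨mem_univ _, hx.2.1⟩
      · exact ⟨mem_univ _, hx.2.1⟩
    have h4 := card_le_card hsub
    have h5 := I.hdeg w
    unfold Inst.dg
    omega
  · have h0 := card_L_le I f P w
    have h1 : ((I.L w).filter (fun c => c ∈ I.T f)).card ≤ I.dg f (I.T f) w + I.p f w + 1 := by
      have hsub : (I.L w).filter (fun c => c ∈ I.T f) ⊆
          ((univ.filter (fun x => I.G.Adj w x ∧ f x ∈ I.T f)).image f ∪
            (I.T f).filter (fun c => I.Free f w c)) ∪ {f w} := by
        intro c hc
        rw [mem_filter] at hc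
        rw [mem_union, mem_union, mem_singleton, mem_image, mem_filter]
        by_cases hne : f w = c
        · exact Or.inr hne.symm
        · left
          by_cases hex : ∃ x, I.G.Adj w x ∧ f x = c
          · obtain ⟨x, hx, hxc⟩ := hex
            left
            refine ⟨x, ?_, hxc⟩
            rw [mem_filter]
            exact ⟨mem_univ _, hx, hxc.symm ▸ hc.2⟩
          · right
            exact ⟨hc.2, hc.1, hne, fun x hx e => hex ⟨x, hx, e⟩⟩
      have h2 := card_le_card hsub
      have h3 := card_union_le ((univ.filter (fun x => I.G.Adj w x ∧ f x ∈ I.T f)).image f ∪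
            (I.T f).filter (fun c => I.Free f w c)) {f w}
      have h4 := card_union_le ((univ.filter (fun x => I.G.Adj w x ∧ f x ∈ I.T f)).image f)
            ((I.T f).filter (fun c => I.Free f w c))
      have h5 : ((univ.filter (fun x => I.G.Adj w x ∧ f x ∈ I.T f)).image f).card ≤
          (univ.filter (fun x => I.G.Adj w x ∧ f x ∈ I.T f)).card := card_image_le
      rw [card_singleton] at h3
      unfold Inst.dg Inst.p
      omega
    omega

end Pool.MP_f5167d_co.KM
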