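import Pool.Agent.Lib.MP_f5167d_co.KM.YFinal
import Pool.Agent.Lib.MP_f5167d_co.KM.WLocal
import Pool.Agent.Lib.MP_f5167d_co.KM.Sizes
import Pool.Agent.Lib.MP_f5167d_co.KM.DCount

set_option autoImplicit false

namespace Pool.MP_f5167d_co.KM

open Finset Classical

variable {V : Type} [Fintype V] (I : Inst V)

/-- ROW count. Write `u = |R|`, `m = |J|`, `κ = K + 1`, all over the rationals. By w_local, for
`w ∈ vs f T`: `dg R w + dg J w + (K - p w) ≤ k - 1` (natural subtraction in `K - p w`). Sum over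
`vs f T`, `|vs f T| ≤ κ q - 1` (sizes, `card V ≤ k q`):
`∑ dg R w + ∑ dg J w + ∑ (K - p w) ≤ (k - 1) (κ q - 1)`.
`∑_w dg J w = ∑_{z ∈ vs J} dg T z ≥ κ m q` (dg_comm, z_local, sizes);
`∑_w dg R w = ∑_{y ∈ vs R} dg T y` (dg_comm); `∑_{w, S w ≠ ∅} (K - p w) ≥ ∑ K - ∑ p w`, and
`∑_{w, S w ≠ ∅} K` = solo_sum; y_final summed over `vs R` (`u q + 1` vertices):
`∑_y (dg T y + ∑_{w ∈ sg y} K/|S w|) ≥ (u q + 1) κ (u + K) / u`. Hence
`κ (u + K)/u + (k - 1) + ∑_{S w = ∅} (K - p w) ≤ ∑_{S w ≠ ∅} p w`, and the first term is positive. -/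
theorem count {f : V → ℕ} {P : ℕ} (h : I.Near f P) (hmax : I.Maxi f) {K : ℕ}
    (hK : (I.R f P).card + (I.J f P).card + K + 1 = I.k) :
    ∑ w ∈ (vs f (I.T f)).filter (fun w => I.S f P w = ∅), (K - I.p f w) <
      ∑ w ∈ (vs f (I.T f)).filter (fun w => I.S f P w ≠ ∅), I.p f w := by
  obtain ⟨s1, s2, s3, -, -⟩ := sizes I h
  have hu : 1 ≤ (I.R f P).card := Finset.card_pos.2 ⟨P, P_mem_R I h⟩
  have hn := I.hn
  -- local inequality at the vertices of the accessible classes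
  have hw : ∀ w ∈ vs f (I.T f),
      I.dg f (I.R f P) w + I.dg f (I.J f P) w + (K - I.p f w) ≤
        (I.R f P).card + (I.J f P).card + K := by
    intro w hw
    obtain ⟨h1, h2⟩ := w_local I h (mem_vs.1 hw)
    omega
  have e1 := Finset.sum_le_sum hw
  rw [Finset.sum_add_distrib, Finset.sum_add_distrib, Finset.sum_const, smul_eq_mul,
    dg_comm I f (I.T f) (I.R f P), dg_comm I f (I.T f) (I.J f P),
    ← Finset.sum_filter_add_sum_filter_not (vs f (I.T f)) (fun w => I.S f P w = ∅)] at e1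
  -- the vertices of J
  have e2 : (I.J f P).card * I.q * (K + 1) ≤ ∑ z ∈ vs f (I.J f P), I.dg f (I.T f) z := by
    rw [← s2, ← smul_eq_mul]
    refine Finset.card_nsmul_le_sum _ _ _ ?_
    intro z hz
    have h1 := z_local I h (mem_vs.1 hz)
    omega
  -- the vertices of R
  have e3 : (((vs f (I.R f P)).card : ℚ)) *
      (((K : ℚ) + 1) * (((I.R f P).card : ℚ) + K) / ((I.R f P).card : ℚ)) ≤
      ∑ y ∈ vs f (I.R f P), ((I.dg f (I.T f) y : ℚ) +
        ∑ w ∈ I.sg f y, (K : ℚ) / ((I.S f P w).card : ℚ)) := by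
    rw [← nsmul_eq_mul]
    refine Finset.card_nsmul_le_sum _ _ _ ?_
    intro y hy
    exact y_final I h hmax hK (mem_vs.1 hy)
  rw [Finset.sum_add_distrib, ← solo_sum I f P (K : ℚ), s1] at e3
  -- the members with solo vertices
  have e4 : ∑ _w ∈ (vs f (I.T f)).filter (fun w => I.S f P w ≠ ∅), (K : ℚ) ≤
      (∑ w ∈ (vs f (I.T f)).filter (fun w => I.S f P w ≠ ∅), ((K - I.p f w : ℕ) : ℚ)) +
      ∑ w ∈ (vs f (I.T f)).filter (fun w => I.S f P w ≠ ∅), (I.p f w : ℚ) := by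
    rw [← Finset.sum_add_distrib]
    refine Finset.sum_le_sum ?_
    intro w _
    have : K ≤ (K - I.p f w) + I.p f w := by omega
    exact_mod_cast this
  -- cast everything to the rationals
  have e1q : (∑ y ∈ vs f (I.R f P), (I.dg f (I.T f) y : ℚ)) +
      (∑ z ∈ vs f (I.J f P), (I.dg f (I.T f) z : ℚ)) +
      ((∑ w ∈ (vs f (I.T f)).filter (fun w => I.S f P w = ∅), ((K - I.p f w : ℕ) : ℚ)) +
        ∑ w ∈ (vs f (I.T f)).filter (fun w => I.S f P w ≠ ∅), ((K - I.p f w : ℕ) : ℚ)) ≤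
      ((vs f (I.T f)).card : ℚ) * ((I.R f P).card + (I.J f P).card + K) := by
    exact_mod_cast e1
  have e2q : ((I.J f P).card : ℚ) * I.q * (K + 1) ≤
      ∑ z ∈ vs f (I.J f P), (I.dg f (I.T f) z : ℚ) := by
    exact_mod_cast e2
  have hT : (vs f (I.T f)).card + 1 ≤ (K + 1) * I.q := by
    have h1 : (I.R f P).card * I.q + (I.J f P).card * I.q + (K + 1) * I.q = I.k * I.q := by
      rw [← hK]; ring
    omega
  have hTq : ((vs f (I.T f)).card : ℚ) + 1 ≤ (K + 1) * I.q := by exact_mod_cast hT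
  have goal : (∑ w ∈ (vs f (I.T f)).filter (fun w => I.S f P w = ∅), ((K - I.p f w : ℕ) : ℚ)) <
      ∑ w ∈ (vs f (I.T f)).filter (fun w => I.S f P w ≠ ∅), (I.p f w : ℚ) := by
    have huq : (1 : ℚ) ≤ ((I.R f P).card : ℚ) := by exact_mod_cast hu
    have hKq : (0 : ℚ) ≤ (K : ℚ) := Nat.cast_nonneg K
    have hmq : (0 : ℚ) ≤ ((I.J f P).card : ℚ) := Nat.cast_nonneg _
    have hqq : (0 : ℚ) ≤ (I.q : ℚ) := Nat.cast_nonneg _
    have e5 : ((vs f (I.T f)).card : ℚ) * ((I.R f P).card + (I.J f P).card + K) ≤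
        ((K + 1) * I.q - 1) * ((I.R f P).card + (I.J f P).card + K) := by
      refine mul_le_mul_of_nonneg_right (by linarith) (by positivity)
    push_cast at e3
    generalize ((I.R f P).card : ℚ) = u at *
    generalize ((I.J f P).card : ℚ) = m at *
    generalize (K : ℚ) = κ at *
    generalize (I.q : ℚ) = q at *
    have e6 : (u * q + 1) * ((κ + 1) * (u + κ) / u) =
        (κ + 1) * (u + κ) * q + (κ + 1) * (u + κ) / u := by
      have : u ≠ 0 := by linarith
      field_simp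
    have e7 : 0 < (κ + 1) * (u + κ) / u := by positivity
    rw [e6] at e3
    have e8 : ((κ + 1) * q - 1) * (u + m + κ) =
        (κ + 1) * (u + κ) * q + m * q * (κ + 1) - (u + m + κ) := by ring
    rw [e8] at e5
    linarith
  exact_mod_cast goal

end Pool.MP_f5167d_co.KM
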