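import Pool.Agent.Lib.MP_f5167d_co.KM.Basic

set_option autoImplicit false

namespace Pool.MP_f5167d_co.KM

open Finset Classical

variable {V : Type} [Fintype V] (I : Inst V)

/-- Moving one vertex to a free class. -/
theorem ps_col_update {f : V → ℕ} (hf : I.Col f) {v : V} {d : ℕ} (h : I.Free f v d) :
    I.Col (Function.update f v d) := by
  refine ⟨fun x => ?_, fun x y hxy => ?_⟩
  · by_cases hx : x = v
    · subst hx
      rw [Function.update_self]
      exact h.1
    · rw [Function.update_of_ne hx]
      exact hf.1 x
  · by_cases hx : x = v
    · subst hx
      have hy : y ≠ x := fun e => I.G.loopless.irrefl x (e ▸ hxy)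
      rw [Function.update_self, Function.update_of_ne hy]
      exact fun e => h.2.2 y hxy e.symm
    · by_cases hy : y = v
      · subst hy
        rw [Function.update_self, Function.update_of_ne hx]
        exact h.2.2 x hxy.symm
      · rw [Function.update_of_ne hx, Function.update_of_ne hy]
        exact hf.2 x y hxy

theorem ps_card_update (f : V → ℕ) (v : V) {d : ℕ} (h : f v ≠ d) (e : ℕ) :
    (cls (Function.update f v d) e).card + (if e = f v then 1 else 0) =
      (cls f e).card + (if e = d then 1 else 0) := by
  by_cases he : e = f v
  · have hed : e ≠ d := fun h' => h (he ▸ h')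
    rw [if_pos he, if_neg hed]
    have h1 : cls f e = insert v (cls (Function.update f v d) e) := by
      ext x
      rw [mem_insert, mem_cls, mem_cls]
      by_cases hx : x = v
      · subst hx
        simp [he]
      · rw [Function.update_of_ne hx]
        simp [hx]
    have h2 : v ∉ cls (Function.update f v d) e := by
      rw [mem_cls, Function.update_self]
      exact fun h' => hed h'.symm
    rw [h1, card_insert_of_notMem h2]
  · by_cases hed : e = d
    · rw [if_neg he, if_pos hed]
      have h1 : cls (Function.update f v d) e = insert v (cls f e) := by
        ext x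
        rw [mem_insert, mem_cls, mem_cls]
        by_cases hx : x = v
        · subst hx
          simp [hed]
        · rw [Function.update_of_ne hx]
          simp [hx]
      have h2 : v ∉ cls f e := by
        rw [mem_cls]
        exact fun h' => he h'.symm
      rw [h1, card_insert_of_notMem h2]
    · rw [if_neg he, if_neg hed]
      have h1 : cls (Function.update f v d) e = cls f e := by
        ext x
        rw [mem_cls, mem_cls]
        by_cases hx : x = v
        · subst hx
          rw [Function.update_self]
          exact ⟨fun h' => absurd h'.symm hed, fun h' => absurd h'.symm he⟩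
        · rw [Function.update_of_ne hx]
      rw [h1]

/-- ROW path_shift. Shift the movers of a simple path. Explicit formula:
`g x = if h : ∃ i, i < l ∧ v i = x then c (Nat.find h + 1) else f x`
(the `v i`, `i < l`, are distinct because the colours `c i = f (v i)` are). `g` is proper: two
adjacent vertices of the same new colour `d = c (i + 1)`: if one of them is the mover `v i` and the
other is not a mover, then `v i` has a neighbour in the old class `d`, against `Free`; both movers
into the same class `c (i+1)` means the same `i`, hence the same vertex. Sizes: the class `c 0` loses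
`v 0`, the class `c l` gains `v (l - 1)`, `c (i + 1)` for `i + 1 < l` gains `v i` and loses
`v (i + 1)`; if `l = 0` then `g = f`. -/
theorem path_shift {f : V → ℕ} (hf : I.Col f) {c : ℕ → ℕ} {v : ℕ → V} {l : ℕ}
    (h : I.Path f c v l) :
    ∃ g : V → ℕ, I.Col g ∧ (∀ x, (∀ i < l, x ≠ v i) → g x = f x) ∧
      (∀ i < l, g (v i) = c (i + 1)) ∧
      ∀ d, (cls g d).card + (if d = c 0 then 1 else 0) =
        (cls f d).card + (if d = c l then 1 else 0) := by
  induction l generalizing f with
  | zero =>
    exact ⟨f, hf, fun x _ => rfl, fun i hi => absurd hi (Nat.not_lt_zero i), fun d => rfl⟩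
  | succ l ih =>
    obtain ⟨h1, h2⟩ := h
    have hl := h1 l (Nat.lt_succ_self l)
    have hne : ∀ i < l, v i ≠ v l := by
      intro i hi e
      have h3 : c i = c l := by rw [← (h1 i (by omega)).1, e, hl.1]
      have h4 := h2 i (by omega) l (by omega) h3
      omega
    have hg1 := ps_col_update I hf hl.2
    have hp : I.Path (Function.update f (v l) (c (l + 1))) c v l := by
      refine ⟨fun i hi => ⟨?_, (h1 i (by omega)).2.1, ?_, fun w hw => ?_⟩,
        fun i hi j hj => h2 i (by omega) j (by omega)⟩
      · rw [Function.update_of_ne (hne i hi)]
        exact (h1 i (by omega)).1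
      · rw [Function.update_of_ne (hne i hi)]
        exact (h1 i (by omega)).2.2.1
      · by_cases hwl : w = v l
        · subst hwl
          rw [Function.update_self]
          intro e
          have h4 := h2 (l + 1) (by omega) (i + 1) (by omega) e
          omega
        · rw [Function.update_of_ne hwl]
          exact (h1 i (by omega)).2.2.2 w hw
    obtain ⟨g, hg, hgf, hgv, hgc⟩ := ih hg1 hp
    refine ⟨g, hg, fun x hx => ?_, fun i hi => ?_, fun d => ?_⟩
    · rw [hgf x (fun i hi => hx i (by omega)), Function.update_of_ne (hx l (by omega))]
    · rcases Nat.lt_succ_iff_lt_or_eq.1 hi with hi' | hi'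
      · exact hgv i hi'
      · subst hi'
        rw [hgf (v i) (fun j hj => (hne j hj).symm), Function.update_self]
    · rw [hgc d]
      have h5 := ps_card_update f (v l) hl.2.2.1 d
      rw [hl.1] at h5
      exact h5

end Pool.MP_f5167d_co.KM
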