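import Pool.Agent.Lib.MP_f5167d_co.KM.RT
import Pool.Agent.Lib.MP_f5167d_co.KM.AccPath
import Pool.Agent.Lib.MP_f5167d_co.KM.PathShift

set_option autoImplicit false

namespace Pool.MP_f5167d_co.KM

open Finset Classical

variable {V : Type} [Fintype V] (I : Inst V)

/-- ROW growth. `c` has a level `l ≥ 1` (exists_lev); shift along the path (acc_path)
`c = c 0, ..., c l = O` (path_shift; no `c t` is `P` by R_disj_T): a near-colouring `g` with the same
surplus class `P`; only `O` is an open class on the path (levels). In `g` the class `c` has `q - 1`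
vertices, `O` one more than before, all other sizes are unchanged. If `|O| + 1 < q` then
`acc g 0 ⊇ insert c (acc f 0)`, against `hmax g P _ 0`. So `|O| + 1 = q` and
`acc g 0 = insert c (acc f 0 \ {O})` has the same cardinality, so `(N g 0).card ≤ (N f 0).card`.
`N g 0` contains every `v` with `Free f v c` (`c` has only lost a vertex, and `g v ≠ c`) and every `v`
in `N f 0` not in `Priv f 0 O` (such `v` has a free class `d ∈ acc f 0`, `d ≠ O`, whose vertices are
the same for `f` and `g`). So
`|{w ∉ N f 0 : Free f w c}| ≤ |Priv f 0 O| - |Priv f 0 O ∩ {Free c}|`.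
The vertex `x` is the last mover `v (l - 1)`. -/
theorem growth {f : V → ℕ} {P : ℕ} (h : I.Near f P) (hmax : I.Maxi f) {c : ℕ}
    (hc : c ∈ I.T f) (hc0 : c ∉ I.acc f 0) :
    ∃ O ∈ I.acc f 0, (cls f O).card + 1 = I.q ∧
      (∃ x, f x ∉ I.acc f 0 ∧ I.Free f x O) ∧
      (univ.filter (fun w => w ∉ I.N f 0 ∧ I.Free f w c)).card ≤
        (univ.filter (fun v => v ∈ I.Priv f 0 O ∧ ¬ I.Free f v c)).card := by
  obtain ⟨y, _⟩ := near_nonempty I h
  obtain ⟨l, hl⟩ := exists_lev I hc
  have hl0 : l ≠ 0 := by
    intro e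
    rw [e] at hl
    exact hc0 hl.1
  obtain ⟨cc, v, hpath, hcc0, hlev⟩ := acc_path I h.1 y hl
  obtain ⟨g, hg, hgf, hgv, hcard⟩ := path_shift I h.1 hpath
  have hTcc : ∀ t ≤ l, cc t ∈ I.T f := fun t ht => acc_sub_T I f _ (hlev t ht).1
  have hPT : P ∉ I.T f := R_disj_T I h (P_mem_R I h)
  have hPcc : ∀ t ≤ l, P ≠ cc t := by
    intro t ht e
    apply hPT
    rw [e]
    exact hTcc t ht
  have hO0 : cc l ∈ I.acc f 0 := by
    have h1 := (hlev l (le_refl l)).1
    simpa using h1
  have hcO : c ≠ cc l := by
    intro e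
    rw [← e] at hO0
    exact hc0 hO0
  have hOq : (cls f (cc l)).card < I.q := ((mem_acc_zero I).1 hO0).2
  have hcP : c ≠ P := by
    intro e
    apply hPT
    rw [← e]
    exact hc
  have hcfull : (cls f c).card = I.q := full_card I h (T_sub_Pal I f hc) hcP hc0
  have hq := I.hq
  -- sizes in g
  have hszc : (cls g c).card + 1 = (cls f c).card := by
    have h1 := hcard c
    rw [if_pos hcc0.symm, if_neg hcO] at h1
    omega
  have hszO : (cls g (cc l)).card = (cls f (cc l)).card + 1 := by
    have h1 := hcard (cc l)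
    rw [hcc0, if_neg (Ne.symm hcO), if_pos rfl] at h1
    omega
  have hsz : ∀ d, d ≠ c → d ≠ cc l → (cls g d).card = (cls f d).card := by
    intro d hd1 hd2
    have h1 := hcard d
    rw [hcc0, if_neg hd1, if_neg hd2] at h1
    omega
  have hnear : I.Near g P := by
    refine ⟨hg, ?_, ?_⟩
    · rw [hsz P hcP.symm (hPcc l (le_refl l))]
      exact h.2.1
    · intro d hd
      by_cases hd1 : d = c
      · subst hd1
        omega
      · by_cases hd2 : d = cc l
        · rw [hd2, hszO]
          omega
        · rw [hsz d hd1 hd2]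
          exact h.2.2 d hd
  have hmx := hmax g P hnear 0 (fun j hj => absurd hj (Nat.not_lt_zero j))
  have hcg0 : c ∈ I.acc g 0 := by
    rw [mem_acc_zero]
    refine ⟨T_sub_Pal I f hc, ?_⟩
    omega
  have hOq1 : (cls f (cc l)).card + 1 = I.q := by
    by_contra hne
    have hlt : (cls f (cc l)).card + 1 < I.q := by omega
    have hsub : insert c (I.acc f 0) ⊆ I.acc g 0 := by
      intro d hd
      rw [mem_insert] at hd
      rcases hd with hd | hd
      · rw [hd]
        exact hcg0
      · have hd' := (mem_acc_zero I).1 hd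
        rw [mem_acc_zero]
        refine ⟨hd'.1, ?_⟩
        by_cases hd2 : d = cc l
        · rw [hd2, hszO]
          exact hlt
        · rw [hsz d (fun e => hc0 (e ▸ hd)) hd2]
          exact hd'.2
    have h1 := card_le_card hsub
    rw [card_insert_of_notMem hc0] at h1
    have h2 := hmx.1
    omega
  have hacc : I.acc g 0 = insert c ((I.acc f 0).erase (cc l)) := by
    ext d
    rw [mem_insert, mem_erase, mem_acc_zero, mem_acc_zero]
    constructor
    · rintro ⟨hd1, hd2⟩
      by_cases hdc : d = c
      · exact Or.inl hdc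
      · right
        by_cases hdO : d = cc l
        · exfalso
          rw [hdO, hszO] at hd2
          omega
        · refine ⟨hdO, hd1, ?_⟩
          rw [← hsz d hdc hdO]
          exact hd2
    · rintro (hd | ⟨hdO, hd1, hd2⟩)
      · rw [hd]
        refine ⟨T_sub_Pal I f hc, ?_⟩
        omega
      · refine ⟨hd1, ?_⟩
        have hdc : d ≠ c := by
          intro e
          rw [e] at hd2
          omega
        rw [hsz d hdc hdO]
        exact hd2
  have hcardacc : (I.acc g 0).card = (I.acc f 0).card := by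
    rw [hacc, card_insert_of_notMem (fun hh => hc0 (mem_of_mem_erase hh)),
      card_erase_of_mem hO0]
    have h1 : 0 < (I.acc f 0).card := card_pos.2 ⟨_, hO0⟩
    omega
  have hNle : (I.N g 0).card ≤ (I.N f 0).card := hmx.2 hcardacc
  -- colours that no mover enters
  have hback : ∀ d, (∀ i < l, cc (i + 1) ≠ d) → ∀ x, g x = d → f x = d := by
    intro d hd x hx
    by_cases hm : ∀ i < l, x ≠ v i
    · rw [hgf x hm] at hx
      exact hx
    · push Not at hm
      obtain ⟨i, hi, hxi⟩ := hm
      exfalso
      apply hd i hi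
      rw [← hgv i hi, ← hxi]
      exact hx
  have hfree : ∀ d, (∀ i < l, cc (i + 1) ≠ d) → ∀ w, I.Free f w d → I.Free g w d := by
    intro d hd w hw
    refine ⟨hw.1, ?_, ?_⟩
    · intro e
      exact hw.2.1 (hback d hd w e)
    · intro x hx e
      exact hw.2.2 x hx (hback d hd x e)
  have hdc : ∀ i < l, cc (i + 1) ≠ c := by
    intro i hi e
    rw [← hcc0] at e
    have := hpath.2 (i + 1) (by omega) 0 (by omega) e
    omega
  have hd0 : ∀ d ∈ I.acc f 0, d ≠ cc l → ∀ i < l, cc (i + 1) ≠ d := by
    intro d hd hdO i hi e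
    have h1 : I.Lev f d 0 := ⟨hd, fun j hj => absurd hj (Nat.not_lt_zero j)⟩
    have h2 := hlev (i + 1) (by omega)
    rw [e] at h2
    have h3 := lev_unique I h1 h2
    have h4 : i + 1 = l := by omega
    apply hdO
    rw [← e, h4]
  refine ⟨cc l, hO0, hOq1, ⟨v (l - 1), ?_, ?_⟩, ?_⟩
  · have h1 := (hpath.1 (l - 1) (by omega)).1
    have h2 := hlev (l - 1) (by omega)
    rw [h1]
    have h3 : l - (l - 1) = 1 := by omega
    rw [h3] at h2
    exact h2.2 0 (by omega)
  · have h1 := (hpath.1 (l - 1) (by omega)).2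
    have h3 : l - 1 + 1 = l := by omega
    rw [h3] at h1
    exact h1
  · set A := univ.filter (fun w => w ∉ I.N f 0 ∧ I.Free f w c) with hA
    set B := univ.filter (fun v => v ∈ I.Priv f 0 (cc l) ∧ ¬ I.Free f v c) with hB
    have hBN : B ⊆ I.N f 0 := by
      intro x hx
      rw [hB, mem_filter] at hx
      exact ((mem_Priv I).1 hx.2.1).1
    have hAfree : ∀ w, I.Free f w c → w ∈ I.N g 0 := by
      intro w hw
      rw [mem_N]
      exact ⟨Or.inl rfl, c, hcg0, hfree c hdc w hw⟩
    have hsub : (I.N f 0 \ B) ∪ A ⊆ I.N g 0 := by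
      intro x hx
      rw [mem_union] at hx
      rcases hx with hx | hx
      · rw [mem_sdiff] at hx
        obtain ⟨hxN, hxB⟩ := hx
        by_cases hxc : I.Free f x c
        · exact hAfree x hxc
        · have hxP : x ∉ I.Priv f 0 (cc l) := by
            intro hxP
            apply hxB
            rw [hB, mem_filter]
            exact ⟨mem_univ _, hxP, hxc⟩
          rw [mem_Priv] at hxP
          have h1 : ¬ ∀ d ∈ I.acc f 0, I.Free f x d → d = cc l := fun hh => hxP ⟨hxN, hh⟩
          push Not at h1
          obtain ⟨d, hd, hxd, hdO⟩ := h1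
          rw [mem_N]
          refine ⟨Or.inl rfl, d, ?_, hfree d (hd0 d hd hdO) x hxd⟩
          rw [hacc, mem_insert, mem_erase]
          exact Or.inr ⟨hdO, hd⟩
      · rw [hA, mem_filter] at hx
        exact hAfree x hx.2.2
    have hdisj : Disjoint (I.N f 0 \ B) A := by
      rw [Finset.disjoint_left]
      intro x hx hx2
      rw [hA, mem_filter] at hx2
      rw [mem_sdiff] at hx
      exact hx2.2.1 hx.1
    have h1 := card_le_card hsub
    rw [card_union_of_disjoint hdisj, card_sdiff_of_subset hBN] at h1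
    have h2 := card_le_card hBN
    omega

end Pool.MP_f5167d_co.KM
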