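import Pool.Agent.Lib.MP_f5167d_co.KM.Basic

set_option autoImplicit false

namespace Pool.MP_f5167d_co.KM

open Finset Classical

variable {V : Type} [Fintype V] (I : Inst V)

/-- ROW inv_acc. Layers and movers do not change when `f` is changed to `g` inside a set `S` of
colours which is closed under arcs and contains no accessible class. For `d ∉ S`: `g w = d ↔ f w = d`
(h1, h2), so freeness for `d` is the same (if `f x ∈ S` then `f x ≠ d` and `g x ≠ d`). Then induction
on `i` (layer 0: classes outside `S` have the same vertices, classes in `S` are full for `f` (h4) and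
for `g` (h5)). A vertex free for some `d ∈ acc f i` has `f v ∉ S` by h3 (`d ∉ S` by h4), so
`g v = f v`. -/
theorem inv_acc {f g : V → ℕ} (hf : I.Col f) (hg : I.Col g) (S : Finset ℕ)
    (h1 : ∀ x, f x ∉ S → g x = f x) (h2 : ∀ x, f x ∈ S → g x ∈ S)
    (h3 : ∀ x, f x ∈ S → ∀ d, I.Free f x d → d ∈ S)
    (h4 : ∀ c ∈ S, c ∉ I.T f) (h5 : ∀ c ∈ S, I.q ≤ (cls g c).card) :
    (∀ d, d ∉ S → ∀ x, I.Free g x d ↔ I.Free f x d) ∧
      (∀ i, I.acc g i = I.acc f i) ∧ (∀ i, I.N g i = I.N f i) := by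
  have hA : ∀ d, d ∉ S → ∀ w, g w = d ↔ f w = d := by
    intro d hd w
    constructor
    · intro h
      by_cases hw : f w ∈ S
      · exact absurd (h ▸ h2 w hw) hd
      · rw [← h1 w hw]; exact h
    · intro h
      rw [h1 w (by rw [h]; exact hd)]
      exact h
  have hB : ∀ d, d ∉ S → ∀ x, I.Free g x d ↔ I.Free f x d := by
    intro d hd x
    unfold Inst.Free
    constructor
    · rintro ⟨a, b, c⟩
      exact ⟨a, fun h => b ((hA d hd x).2 h), fun w hw h => c w hw ((hA d hd w).2 h)⟩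
    · rintro ⟨a, b, c⟩
      exact ⟨a, fun h => b ((hA d hd x).1 h), fun w hw h => c w hw ((hA d hd w).1 h)⟩
  have hT : ∀ i, ∀ d ∈ I.acc f i, d ∉ S := fun i d hd hS => h4 d hS (acc_sub_T I f i hd)
  have hM : ∀ i, ∀ d ∈ I.acc f i, ∀ v, I.Free f v d → g v = f v := by
    intro i d hd v hv
    exact h1 v (fun h => hT i d hd (h3 v h d hv))
  have hC : ∀ i, I.acc g i = I.acc f i := by
    intro i
    induction i with
    | zero =>
      ext c
      rw [mem_acc_zero, mem_acc_zero]
      by_cases hc : c ∈ S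
      · have e1 := h5 c hc
        have e2 := h4 c hc
        constructor
        · rintro ⟨_, h⟩; omega
        · intro h
          exact absurd (acc_sub_T I f 0 ((mem_acc_zero I).2 h)) e2
      · have : cls g c = cls f c := by
          ext v
          rw [mem_cls, mem_cls]
          exact hA c hc v
        rw [this]
    | succ i ih =>
      ext c
      rw [mem_acc_succ, mem_acc_succ, ih]
      constructor
      · rintro ⟨h, h' | ⟨v, hv, d, hd, hfr⟩⟩
        · exact ⟨h, Or.inl h'⟩
        · have hfr' := (hB d (hT i d hd) v).1 hfr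
          exact ⟨h, Or.inr ⟨v, (hM i d hd v hfr').symm.trans hv, d, hd, hfr'⟩⟩
      · rintro ⟨h, h' | ⟨v, hv, d, hd, hfr⟩⟩
        · exact ⟨h, Or.inl h'⟩
        · exact ⟨h, Or.inr ⟨v, (hM i d hd v hfr).trans hv, d, hd, (hB d (hT i d hd) v).2 hfr⟩⟩
  refine ⟨hB, hC, ?_⟩
  intro i
  ext v
  rw [mem_N, mem_N, hC i]
  constructor
  · rintro ⟨h, d, hd, hfr⟩
    have hfr' := (hB d (hT i d hd) v).1 hfr
    rw [hM i d hd v hfr'] at h
    exact ⟨h, d, hd, hfr'⟩
  · rintro ⟨h, d, hd, hfr⟩
    rw [← hM i d hd v hfr] at h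
    exact ⟨h, d, hd, (hB d (hT i d hd) v).2 hfr⟩

end Pool.MP_f5167d_co.KM
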