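import Pool.Agent.Lib.MP_f5167d_co.KM.RT

set_option autoImplicit false

namespace Pool.MP_f5167d_co.KM

open Finset Classical

variable {V : Type} [Fintype V] (I : Inst V)

/-- ROW move_R. Make the class of `y` the surplus class by a shift inside `R`.
(mem_R gives the chain of arcs from `P` to `f y`; rtg_path, path_shift; all classes on the path are in
`R` (path_reach, and the colours are in the palette); the classes in `R` other than `P` have exactly
`q` vertices by R_disj_T and full_card; `y` is not a mover because the path is simple.) -/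
theorem move_R {f : V → ℕ} {P : ℕ} (h : I.Near f P) {y : V} (hy : f y ∈ I.R f P) :
    ∃ g : V → ℕ, I.Near g (f y) ∧ g y = f y ∧ (∀ x, f x ∉ I.R f P → g x = f x) ∧
      (∀ x, f x ∈ I.R f P → g x ∈ I.R f P) ∧
      (∀ c ∈ I.R f P, I.q ≤ (cls g c).card) := by
  obtain ⟨c, v, l, hp, hc0, hcl⟩ := rtg_path I y ((mem_R I).1 hy).2
  obtain ⟨g, hg, hg1, hg2, hg3⟩ := path_shift I h.1 hp
  rw [hc0, hcl] at hg3
  have hfull : ∀ d ∈ I.R f P, d ≠ P → (cls f d).card = I.q := by
    intro d hd hdP
    exact full_card I h (R_sub_Pal I f P hd) hdP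
      (fun h0 => R_disj_T I h hd (acc_sub_T I f 0 h0))
  have hcR : ∀ i ≤ l, c i ∈ I.R f P := by
    intro i hi
    rw [mem_R]
    refine ⟨?_, ?_⟩
    · rcases Nat.lt_or_ge i l with h1 | h1
      · rw [← (hp.1 i h1).1]
        exact col_mem_Pal I h.1 _
      · have h2 : i = l := by omega
        rw [h2, hcl]
        exact R_sub_Pal I f P hy
    · have h3 := path_reach I hp i hi
      rwa [hc0] at h3
  have hyv : ∀ i < l, y ≠ v i := by
    intro i hi hyi
    have h1 : c i = c l := by rw [hcl, hyi, (hp.1 i hi).1]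
    have h2 := hp.2 i (by omega) l le_rfl h1
    omega
  refine ⟨g, ⟨hg, ?_, ?_⟩, hg1 y hyv, ?_, ?_, ?_⟩
  · have h1 := hg3 (f y)
    rw [if_pos rfl] at h1
    by_cases h2 : f y = P
    · rw [if_pos h2, h2, h.2.1] at h1
      rw [h2]
      omega
    · rw [if_neg h2, hfull _ hy h2] at h1
      omega
  · intro d hd
    have h1 := hg3 d
    rw [if_neg hd] at h1
    by_cases h2 : d = P
    · rw [if_pos h2, h2, h.2.1] at h1
      rw [h2]
      omega
    · rw [if_neg h2] at h1
      have h3 := h.2.2 d h2
      omega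
  · intro x hx
    apply hg1
    intro i hi hxi
    apply hx
    rw [hxi, (hp.1 i hi).1]
    exact hcR i (by omega)
  · intro x hx
    by_cases h1 : ∃ i, i < l ∧ x = v i
    · obtain ⟨i, hi, hxi⟩ := h1
      rw [hxi, hg2 i hi]
      exact hcR (i + 1) (by omega)
    · rw [hg1 x (fun i hi hxi => h1 ⟨i, hi, hxi⟩)]
      exact hx
  · intro d hd
    have h1 := hg3 d
    by_cases h2 : d = P
    · rw [if_pos h2, h2, h.2.1] at h1
      rw [h2]
      omega
    · rw [if_neg h2, hfull d hd h2] at h1
      omega

end Pool.MP_f5167d_co.KM
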