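import Pool.Agent.Lib.MP_f5167d_co.KM.LemA0
import Pool.Agent.Lib.MP_f5167d_co.KM.MoveR
import Pool.Agent.Lib.MP_f5167d_co.KM.Inv

set_option autoImplicit false

namespace Pool.MP_f5167d_co.KM

open Finset Classical

variable {V : Type} [Fintype V] (I : Inst V)

theorem transfer {f : V → ℕ} {P : ℕ} (h : I.Near f P) {y : V} (hy : f y ∈ I.R f P) :
    ∃ g : V → ℕ, I.Near g (f y) ∧ g y = f y ∧ (∀ x, f x ∉ I.R f P → g x = f x) ∧
      (∀ x, g x ∈ I.R f P ↔ f x ∈ I.R f P) ∧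
      (∀ d, d ∉ I.R f P → ∀ x, I.Free g x d ↔ I.Free f x d) ∧
      (∀ i, I.acc g i = I.acc f i) ∧ (∀ i, I.N g i = I.N f i) ∧ I.T g = I.T f ∧
      (∀ x, g x ∈ I.R f P → ∀ d, I.Free g x d → d ∈ I.R f P) ∧
      (∀ w, f w ∈ I.T f → ∀ v, I.Solo g v w ↔ I.Solo f v w) ∧
      (∀ i W, I.Priv g i W = I.Priv f i W) ∧
      (I.Maxi f → I.Maxi g) := by
  obtain ⟨g, hg, hgy, h1, h2, h5⟩ := move_R I h hy
  obtain ⟨hfree, hacc, hN⟩ := inv_acc I h.1 hg.1 (I.R f P) h1 h2
    (fun x hx d hd => R_closed I hx hd) (fun c hc => R_disj_T I h hc) h5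
  have hiff : ∀ x, g x ∈ I.R f P ↔ f x ∈ I.R f P := by
    intro x
    refine ⟨fun hx => ?_, h2 x⟩
    by_contra hcon
    rw [h1 x hcon] at hx
    exact hcon hx
  have hval : ∀ d, d ∉ I.R f P → ∀ x, g x = d ↔ f x = d := by
    intro d hd x
    constructor
    · intro hx
      have h3 : f x ∉ I.R f P := by
        rw [← hiff, hx]
        exact hd
      rw [← h1 x h3]
      exact hx
    · intro hx
      have h3 : f x ∉ I.R f P := by
        rw [hx]
        exact hd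
      rw [h1 x h3]
      exact hx
  have hT : I.T g = I.T f := by
    ext c
    rw [mem_T, mem_T]
    simp only [hacc]
  have hTR : ∀ d ∈ I.T f, d ∉ I.R f P := fun d hd hR => R_disj_T I h hR hd
  refine ⟨g, hg, hgy, h1, hiff, hfree, hacc, hN, hT, ?_, ?_, ?_, ?_⟩
  · intro x hx d hd
    by_contra hcon
    have h3 := (hfree d hcon x).1 hd
    exact hcon (R_closed I ((hiff x).1 hx) h3)
  · intro w hw v
    have hwR := hTR _ hw
    have hgw : g w = f w := h1 w hwR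
    unfold Inst.Solo
    rw [hgw]
    simp only [hval (f w) hwR]
  · intro i W
    ext v
    rw [mem_Priv, mem_Priv, hN, hacc]
    constructor
    · rintro ⟨h3, h4⟩
      exact ⟨h3, fun d hd hf => h4 d hd ((hfree d (hTR d (acc_sub_T I f i hd)) v).2 hf)⟩
    · rintro ⟨h3, h4⟩
      exact ⟨h3, fun d hd hf => h4 d hd ((hfree d (hTR d (acc_sub_T I f i hd)) v).1 hf)⟩
  · intro hmax g' P' hg' i hi
    have h3 := hmax g' P' hg' i (fun j hj => by
      have h4 := hi j hj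
      rw [hacc, hN] at h4
      exact h4)
    rw [hacc, hN]
    exact h3

theorem lemA {f : V → ℕ} {P : ℕ} (h : I.Near f P) {y w : V} (hy : f y ∈ I.R f P)
    (hs : I.Solo f y w) (hwT : f w ∈ I.T f) {i F : ℕ} (hW : ∀ j < i, f w ∉ I.acc f j)
    (hF : F ∈ I.acc f i) : ¬ I.Free f w F := by
  obtain ⟨g, hg, hgy, h1, hiff, hfree, hacc, hN, hT, hcl, hsolo, hpr, hmx⟩ := transfer I h hy
  intro hfr
  have hTR : ∀ d ∈ I.T f, d ∉ I.R f P := fun d hd hR => R_disj_T I h hR hd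
  have hgw : g w = f w := h1 w (hTR _ hwT)
  refine lemA0 I hg hgy ((hsolo w hwT y).2 hs) (i := i) (F := F) ?_ ?_ ?_
  · intro j hj
    rw [hgw, hacc]
    exact hW j hj
  · rw [hacc]
    exact hF
  · exact (hfree F (hTR F (acc_sub_T I f i hF)) w).2 hfr

end Pool.MP_f5167d_co.KM
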