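import Pool.Agent.Lib.MP_f5167d_co.KM.Sizes

set_option autoImplicit false

namespace Pool.MP_f5167d_co.KM

open Finset Classical

variable {V : Type} [Fintype V] (I : Inst V)

theorem nfull_card_vs (f : V → ℕ) (X : Finset ℕ) :
    (vs f X).card = ∑ c ∈ X, (cls f c).card := by
  have h1 : vs f X = X.biUnion (fun c => cls f c) := by
    ext v
    simp [vs, cls]
  rw [h1, card_biUnion]
  intro c _ d _ hcd
  rw [Function.onFun, Finset.disjoint_left]
  intro v hv hv'
  rw [mem_cls] at hv hv'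
  exact hcd (hv.symm.trans hv')

/-- ROW nfull. `|vs f T| = |T \ acc 0| q + ∑_{c ∈ acc 0} |cls f c|` (full_card; classes in `T` are not
`P`, R_disj_T) and sizes, `card V ≤ k q`. -/
theorem nfull {f : V → ℕ} {P : ℕ} (h : I.Near f P) {K : ℕ}
    (hK : (I.R f P).card + (I.J f P).card + K + 1 = I.k) :
    (I.T f \ I.acc f 0).card ≤ K ∧
    ((I.T f \ I.acc f 0).card = K → ∑ c ∈ I.acc f 0, (cls f c).card + 1 ≤ I.q) ∧
    ((I.T f \ I.acc f 0).card = K → ∑ c ∈ I.acc f 0, (cls f c).card + 1 = I.q →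
      Fintype.card V = I.k * I.q) := by
  obtain ⟨h1, h2, h3, _, _⟩ := sizes I h
  have hT : (vs f (I.T f)).card
      = (I.T f \ I.acc f 0).card * I.q + ∑ c ∈ I.acc f 0, (cls f c).card := by
    rw [nfull_card_vs, ← Finset.sum_sdiff (acc_sub_T I f 0)]
    congr 1
    rw [Finset.sum_const_nat]
    intro c hc
    rw [mem_sdiff] at hc
    refine full_card I h (T_sub_Pal I f hc.1) ?_ hc.2
    rintro rfl
    exact R_disj_T I h (P_mem_R I h) hc.1
  have hn := I.hn
  rw [← h3, h1, h2, hT, ← hK] at hn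
  rw [← h3, h1, h2, hT, ← hK]
  generalize (I.R f P).card = r at *
  generalize (I.J f P).card = m at *
  generalize (I.T f \ I.acc f 0).card = n at *
  generalize ∑ c ∈ I.acc f 0, (cls f c).card = s at *
  have e1 : (r + m + K + 1) * I.q = r * I.q + m * I.q + K * I.q + I.q := by ring
  rw [e1] at hn ⊢
  refine ⟨?_, ?_, ?_⟩
  · by_contra hcon
    have h4 : (K + 1) * I.q ≤ n * I.q := Nat.mul_le_mul_right _ (by omega)
    have e2 : (K + 1) * I.q = K * I.q + I.q := by ring
    omega
  · rintro rfl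
    omega
  · rintro rfl hs
    omega

end Pool.MP_f5167d_co.KM
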