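import Pool.Agent.Lib.MP_f5167d_co.KM.Grow12
import Pool.Agent.Lib.MP_f5167d_co.KM.NFull
import Pool.Agent.Lib.MP_f5167d_co.KM.Growth
import Pool.Agent.Lib.MP_f5167d_co.KM.Count
import Pool.Agent.Lib.MP_f5167d_co.KM.LemA

set_option autoImplicit false

namespace Pool.MP_f5167d_co.KM

open Finset Classical

variable {V : Type} [Fintype V] (I : Inst V)

/-- ROW big_case. If `K = 0` there is no class in `T f \ acc f 0`, so by lemA `p f w = 0` whenever
`S f P w ≠ ∅` (`w ∈ vs f T`), against count. If `K ≥ 1` take `c ∈ T f \ acc f 0` and growth: `O`, `x`.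
By nfull all other classes in `acc f 0` are empty. An `e ∈ acc f 0`, `e ≠ O`, is in some `L v`
(mem_Pal), so `Free f v e` (`e` is empty); `f v ∉ acc f 0` contradicts grow1 (`1 < q`), and
`f v ∈ acc f 0` means `f v = O` (its class is not empty), against grow2. So `acc f 0 = {O}`,
`|T f| = K + 1`, and sizes gives `|Pal| = k`; nfull gives `card V = k q`. -/
theorem big_case {f : V → ℕ} {P : ℕ} (h : I.Near f P) (hmax : I.Maxi f) {K : ℕ}
    (hK : (I.R f P).card + (I.J f P).card + K + 1 = I.k)
    (hN : (I.T f \ I.acc f 0).card = K) :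
    I.Pal.card = I.k ∧ Fintype.card V = I.k * I.q := by
  obtain ⟨-, hn2, hn3⟩ := nfull I h hK
  have hs := (sizes I h).2.2.2.1
  have hq := I.hq
  rcases Nat.eq_zero_or_pos K with hK0 | hK0
  · exfalso
    have hc := count I h hmax hK
    have hz : ∑ w ∈ (vs f (I.T f)).filter (fun w => I.S f P w ≠ ∅), I.p f w = 0 := by
      apply Finset.sum_eq_zero
      intro w hw
      rw [mem_filter, mem_vs] at hw
      obtain ⟨hwT, hwS⟩ := hw
      obtain ⟨y, hy⟩ := Finset.nonempty_iff_ne_empty.2 hwS
      rw [mem_S] at hy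
      rw [Inst.p, Finset.card_eq_zero, Finset.filter_eq_empty_iff]
      intro c hc'
      have hc0 : c ∈ I.acc f 0 := by
        by_contra hcn
        have h1 : c ∈ I.T f \ I.acc f 0 := mem_sdiff.2 ⟨hc', hcn⟩
        have h2 : (I.T f \ I.acc f 0).card ≠ 0 := Finset.card_ne_zero.2 ⟨c, h1⟩
        omega
      exact lemA I h hy.1 hy.2 hwT (i := 0) (fun j hj => absurd hj (Nat.not_lt_zero j)) hc0
    rw [hz] at hc
    exact Nat.not_lt_zero _ hc
  · have hne : (I.T f \ I.acc f 0).card ≠ 0 := by omega
    obtain ⟨c, hc⟩ := Finset.card_ne_zero.1 hne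
    rw [mem_sdiff] at hc
    obtain ⟨O, hO, hOq, ⟨x, hx0, hxO⟩, -⟩ := growth I h hmax hc.1 hc.2
    have hsum := hn2 hN
    have hOle : (cls f O).card ≤ ∑ c ∈ I.acc f 0, (cls f c).card :=
      Finset.single_le_sum (f := fun c => (cls f c).card) (fun _ _ => Nat.zero_le _) hO
    have hsumeq : ∑ c ∈ I.acc f 0, (cls f c).card + 1 = I.q := by omega
    have hV := hn3 hN hsumeq
    have hempty : ∀ e ∈ I.acc f 0, e ≠ O → cls f e = ∅ := by
      intro e he hne'
      have h1 : ∑ c ∈ ({O, e} : Finset ℕ), (cls f c).card ≤ ∑ c ∈ I.acc f 0, (cls f c).card := by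
        apply Finset.sum_le_sum_of_subset
        intro z hz
        rw [mem_insert, mem_singleton] at hz
        rcases hz with rfl | rfl
        · exact hO
        · exact he
      rw [Finset.sum_pair (Ne.symm hne')] at h1
      have h2 : (cls f e).card = 0 := by omega
      exact Finset.card_eq_zero.1 h2
    have hacc : I.acc f 0 = {O} := by
      rw [Finset.eq_singleton_iff_unique_mem]
      refine ⟨hO, ?_⟩
      intro e he
      by_contra hne'
      have hem := hempty e he hne'
      obtain ⟨v, hv⟩ := (mem_Pal I).1 (acc_sub_Pal I f 0 he)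
      have hno : ∀ z, f z ≠ e := by
        intro z hz
        have : z ∈ cls f e := mem_cls.2 hz
        rw [hem] at this
        exact absurd this (Finset.notMem_empty z)
      have hfree : I.Free f v e := ⟨hv, hno v, fun w _ => hno w⟩
      have hcard : (cls f e).card + 1 < I.q := by
        rw [hem, Finset.card_empty]
        omega
      by_cases hv0 : f v ∈ I.acc f 0
      · have hvO : f v = O := by
          by_contra hvO
          have h3 := hempty (f v) hv0 hvO
          have : v ∈ cls f (f v) := mem_cls.2 rfl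
          rw [h3] at this
          exact absurd this (Finset.notMem_empty v)
        exact grow2 I h hmax he hem hO hfree hvO hxO hx0
      · exact grow1 I h hmax he hcard hfree hv0
    refine ⟨?_, hV⟩
    have hT : (I.T f \ I.acc f 0).card + (I.acc f 0).card = (I.T f).card :=
      Finset.card_sdiff_add_card_eq_card (acc_sub_T I f 0)
    rw [hacc, Finset.card_singleton] at hT
    rw [hacc] at hN
    omega

end Pool.MP_f5167d_co.KM
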