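import Mathlib

set_option autoImplicit false

namespace Pool.MP_f5167d_co.KM

open Finset Classical

/-- A counterexample to the Kostochka-Pelsmajer-West statement (to be refuted). -/
structure Inst (V : Type) [Fintype V] where
  G : SimpleGraph V
  L : V → Finset ℕ
  k : ℕ
  q : ℕ
  hk : ∀ v, (L v).card = k
  hdeg : ∀ v, (univ.filter (fun w => G.Adj v w)).card < k
  hn : Fintype.card V ≤ k * q
  hq : 2 ≤ q
  noex : ∀ f : V → ℕ, (∀ v, f v ∈ L v) → (∀ u v, G.Adj u v → f u ≠ f v) →
    ¬ ∀ c, (univ.filter (fun v => f v = c)).card ≤ q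

noncomputable section

variable {V : Type} [Fintype V] (I : Inst V)

/-- The class of the colour `c`. -/
def cls (f : V → ℕ) (c : ℕ) : Finset V := univ.filter (fun v => f v = c)

/-- Proper colourings from the lists. -/
def Inst.Col (f : V → ℕ) : Prop :=
  (∀ v, f v ∈ I.L v) ∧ ∀ u v, I.G.Adj u v → f u ≠ f v

/-- Near-colourings: one class of size `q + 1` (the surplus class `P`), all others at most `q`. -/
def Inst.Near (f : V → ℕ) (P : ℕ) : Prop :=
  I.Col f ∧ (cls f P).card = I.q + 1 ∧ ∀ c, c ≠ P → (cls f c).card ≤ I.q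

/-- The palette: the union of all lists. -/
def Inst.Pal : Finset ℕ := univ.biUnion I.L

/-- `c` is a free class for the vertex `v`. -/
def Inst.Free (f : V → ℕ) (v : V) (c : ℕ) : Prop :=
  c ∈ I.L v ∧ f v ≠ c ∧ ∀ w, I.G.Adj v w → f w ≠ c

/-- `acc f i`: the colours in the layers `0, ..., i` (layer 0 = open classes). -/
def Inst.acc (f : V → ℕ) : ℕ → Finset ℕ
  | 0 => I.Pal.filter (fun c => (cls f c).card < I.q)
  | (i + 1) => I.Pal.filter (fun c => c ∈ Inst.acc f i ∨
      ∃ v, f v = c ∧ ∃ d ∈ Inst.acc f i, I.Free f v d)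

/-- The movers of level `i`. -/
def Inst.N (f : V → ℕ) (i : ℕ) : Finset V :=
  univ.filter (fun v => (i = 0 ∨ f v ∉ I.acc f i) ∧ ∃ d ∈ I.acc f i, I.Free f v d)

/-- The movers of level `i` whose only free class in `acc f i` is `W`. -/
def Inst.Priv (f : V → ℕ) (i : ℕ) (W : ℕ) : Finset V :=
  (I.N f i).filter (fun v => ∀ d ∈ I.acc f i, I.Free f v d → d = W)

/-- `i` is the level of `c`. -/
def Inst.Lev (f : V → ℕ) (c : ℕ) (i : ℕ) : Prop :=
  c ∈ I.acc f i ∧ ∀ j < i, c ∉ I.acc f j

/-- The accessible classes. -/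
def Inst.T (f : V → ℕ) : Finset ℕ := I.Pal.filter (fun c => ∃ i, c ∈ I.acc f i)

/-- Arcs between classes. -/
def Inst.Arc (f : V → ℕ) (c d : ℕ) : Prop := ∃ v, f v = c ∧ I.Free f v d

/-- The classes reachable from the surplus class. -/
def Inst.R (f : V → ℕ) (P : ℕ) : Finset ℕ :=
  I.Pal.filter (fun c => Relation.ReflTransGen (I.Arc f) P c)

/-- The remaining classes. -/
def Inst.J (f : V → ℕ) (P : ℕ) : Finset ℕ := (I.Pal \ I.T f) \ I.R f P

/-- `v` is solo at `w`: `w` is the only neighbour of `v` in the class of `w`. -/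
def Inst.Solo (f : V → ℕ) (v w : V) : Prop :=
  f w ∈ I.L v ∧ I.G.Adj v w ∧ ∀ x, I.G.Adj v x → f x = f w → x = w

/-- The solo vertices of `w` in the classes reachable from `P`. -/
def Inst.S (f : V → ℕ) (P : ℕ) (w : V) : Finset V :=
  univ.filter (fun v => f v ∈ I.R f P ∧ I.Solo f v w)

/-- The number of free accessible classes of `w`. -/
def Inst.p (f : V → ℕ) (w : V) : ℕ := ((I.T f).filter (fun c => I.Free f w c)).card

/-- The vertices in the classes of a set of colours. -/
def vs (f : V → ℕ) (X : Finset ℕ) : Finset V := univ.filter (fun v => f v ∈ X)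

/-- The number of neighbours of `v` in the classes of `X`. -/
def Inst.dg (f : V → ℕ) (X : Finset ℕ) (v : V) : ℕ :=
  (univ.filter (fun x => I.G.Adj v x ∧ f x ∈ X)).card

/-- Lexicographic maximality of `(|acc 0|, |N 0|, |acc 1|, |N 1|, ...)` among all near-colourings. -/
def Inst.Maxi (f : V → ℕ) : Prop :=
  ∀ (g : V → ℕ) (P : ℕ), I.Near g P → ∀ i,
    (∀ j < i, (I.acc g j).card = (I.acc f j).card ∧ (I.N g j).card = (I.N f j).card) →
    (I.acc g i).card ≤ (I.acc f i).card ∧
      ((I.acc g i).card = (I.acc f i).card → (I.N g i).card ≤ (I.N f i).card)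

/-- A simple path `c 0 → c 1 → ... → c l` of classes with movers `v 0, ..., v (l - 1)`. -/
def Inst.Path (f : V → ℕ) (c : ℕ → ℕ) (v : ℕ → V) (l : ℕ) : Prop :=
  (∀ i < l, f (v i) = c i ∧ I.Free f (v i) (c (i + 1))) ∧
    ∀ i ≤ l, ∀ j ≤ l, c i = c j → i = j

end

end Pool.MP_f5167d_co.KM
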