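import Pool.Agent.Lib.MP_f5167d_co.KM.LemA

set_option autoImplicit false

namespace Pool.MP_f5167d_co.KM

open Finset Classical

variable {V : Type} [Fintype V] (I : Inst V)

theorem disj_aux_lt {f : V → ℕ} (hf : I.Col f) {v : V} {i j W W' : ℕ} (hij : i < j)
    (h1 : v ∈ I.Priv f i W) (h2 : v ∈ I.Priv f j W') : False := by
  have h1' := (mem_N I).1 ((mem_Priv I).1 h1).1
  have h2' := (mem_N I).1 ((mem_Priv I).1 h2).1
  obtain ⟨_, d, hd, hfr⟩ := h1'
  have h3 : f v ∈ I.acc f (i + 1) := mem_acc_of_free I hf hd hfr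
  have h4 : f v ∈ I.acc f j := acc_mono I f hij h3
  rcases h2'.1 with h5 | h5
  · omega
  · exact h5 h4

theorem disj_aux_eq {f : V → ℕ} {v : V} {i W W' : ℕ}
    (h1 : v ∈ I.Priv f i W) (h2 : v ∈ I.Priv f i W') : W = W' := by
  have h1' := (mem_Priv I).1 h1
  have h2' := (mem_Priv I).1 h2
  obtain ⟨_, d, hd, hfr⟩ := (mem_N I).1 h1'.1
  rw [← h1'.2 d hd hfr, ← h2'.2 d hd hfr]

/-- ROW disj. (2.1): the sets `{v ∈ Priv f (lv (f w)) (f w) : Adj y v}`, `w` solo for `y` in a class of
`T`, are pairwise disjoint (two different such `w` are in different classes, by `Solo`; equal levels: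
a member has a free class in `acc f i`, which would be both; levels `i < i'`: the member has class in
`acc f (i+1)` by mem_acc_of_free, but not in `acc f i'` since `i' ≠ 0`) and contained in the set on the
right (class in `T` by mem_acc_of_free; if `v` were solo for `y`, then lemA for `v` with the same `i`
contradicts `v ∈ N f i`; use acc_mono for `∀ j < i, f v ∉ acc f j`). -/
theorem sum_priv_le {f : V → ℕ} {P : ℕ} (h : I.Near f P) {y : V} (hy : f y ∈ I.R f P)
    (lv : ℕ → ℕ) (hlv : ∀ c ∈ I.T f, I.Lev f c (lv c)) :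
    ∑ w ∈ univ.filter (fun w => f w ∈ I.T f ∧ I.Solo f y w),
        ((I.Priv f (lv (f w)) (f w)).filter (fun v => I.G.Adj y v)).card ≤
      (univ.filter (fun v => I.G.Adj y v ∧ f v ∈ I.T f ∧ ¬ I.Solo f y v)).card := by
  have hdisj : (↑(univ.filter (fun w => f w ∈ I.T f ∧ I.Solo f y w)) : Set V).PairwiseDisjoint
      (fun w => (I.Priv f (lv (f w)) (f w)).filter (fun v => I.G.Adj y v)) := by
    intro w hw w' hw' hne
    rw [Finset.mem_coe, mem_filter] at hw hw'
    show Disjoint _ _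
    rw [Finset.disjoint_left]
    intro v hv hv'
    rw [mem_filter] at hv hv'
    rcases lt_trichotomy (lv (f w)) (lv (f w')) with hlt | heq | hgt
    · exact disj_aux_lt I h.1 hlt hv.1 hv'.1
    · have h1 := hv.1
      rw [heq] at h1
      have h2 : f w = f w' := disj_aux_eq I h1 hv'.1
      have h3 : w' = w := hw.2.2.2.2 w' hw'.2.2.2.1 h2.symm
      exact hne h3.symm
    · exact disj_aux_lt I h.1 hgt hv'.1 hv.1
  rw [← Finset.card_biUnion hdisj]
  apply Finset.card_le_card
  intro v hv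
  rw [Finset.mem_biUnion] at hv
  obtain ⟨w, hw, hv⟩ := hv
  rw [mem_filter] at hw hv
  obtain ⟨hN, d, hd, hfr⟩ := (mem_N I).1 ((mem_Priv I).1 hv.1).1
  have hT : f v ∈ I.T f := acc_sub_T I f _ (mem_acc_of_free I h.1 hd hfr)
  rw [mem_filter]
  refine ⟨mem_univ _, hv.2, hT, fun hs => ?_⟩
  refine lemA I h hy hs hT (i := lv (f w)) (F := d) ?_ hd hfr
  intro j hj hmem
  rcases hN with h0 | h0
  · omega
  · exact h0 (acc_mono I f hj.le hmem)

end Pool.MP_f5167d_co.KM
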