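import Pool.Agent.Lib.MP_f5167d_co.KM.RT

set_option autoImplicit false

namespace Pool.MP_f5167d_co.KM

open Finset Classical

variable {V : Type} [Fintype V] (I : Inst V)

/-- Shift along a simple path from a full accessible class to an open class with at most `q - 2`
vertices: one more open class. -/
theorem grow_path {f : V → ℕ} {P : ℕ} (h : I.Near f P) (hmax : I.Maxi f) {c : ℕ → ℕ}
    {v : ℕ → V} {l : ℕ} (hp : I.Path f c v l) (h0 : c 0 ∈ I.T f) (h0' : c 0 ∉ I.acc f 0)
    (hl : c l ∈ I.acc f 0) (hs : (cls f (c l)).card + 1 < I.q) : False := by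
  obtain ⟨g, hg, -, -, hcard⟩ := path_shift I h.1 hp
  have hPT : P ∉ I.T f := R_disj_T I h (P_mem_R I h)
  have h0P : c 0 ≠ P := fun e => hPT (e ▸ h0)
  have hlP : c l ≠ P := fun e => hPT (e ▸ acc_sub_T I f 0 hl)
  have h0l : c 0 ≠ c l := fun e => h0' (e ▸ hl)
  have hle : ∀ d, (cls g d).card ≤ (cls f d).card + (if d = c l then 1 else 0) := fun d => by
    have := hcard d
    omega
  have hP : (cls g P).card = I.q + 1 := by
    have := hcard P
    rw [if_neg (fun e => h0P e.symm), if_neg (fun e => hlP e.symm), h.2.1] at this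
    omega
  have hnear : I.Near g P := by
    refine ⟨hg, hP, fun d hd => ?_⟩
    have h1 := hle d
    have h2 := h.2.2 d hd
    by_cases hdl : d = c l
    · rw [if_pos hdl, hdl] at h1
      rw [hdl]
      omega
    · rw [if_neg hdl] at h1
      omega
  have h1 := (hmax g P hnear 0 (fun j hj => absurd hj (Nat.not_lt_zero j))).1
  have h2 : insert (c 0) (I.acc f 0) ⊆ I.acc g 0 := by
    intro d hd
    rw [mem_insert] at hd
    rw [mem_acc_zero]
    rcases hd with hd | hd
    · subst hd
      refine ⟨T_sub_Pal I f h0, ?_⟩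
      have h3 := hcard (c 0)
      rw [if_pos rfl, if_neg h0l] at h3
      have h4 := h.2.2 (c 0) h0P
      omega
    · refine ⟨acc_sub_Pal I f 0 hd, ?_⟩
      have h3 := hle d
      have h4 := ((mem_acc_zero I).1 hd).2
      by_cases hdl : d = c l
      · rw [if_pos hdl, hdl] at h3
        rw [hdl]
        omega
      · rw [if_neg hdl] at h3
        omega
  have h3 := card_le_card h2
  rw [card_insert_of_notMem h0'] at h3
  omega

/-- ROW grow. Move `v` (in a full accessible class) to an open class with at most `q - 2` vertices: a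
near-colouring with the same surplus class (`f v ∈ T f` by T_of_free, so `f v ≠ P`) and one more open
class, against `hmax _ P _ 0`. -/
theorem grow1 {f : V → ℕ} {P : ℕ} (h : I.Near f P) (hmax : I.Maxi f) {e : ℕ}
    (he : e ∈ I.acc f 0) (hs : (cls f e).card + 1 < I.q) {v : V} (hv : I.Free f v e)
    (hv0 : f v ∉ I.acc f 0) : False := by
  have hp : I.Path f (fun i => if i = 0 then f v else e) (fun _ => v) 1 := by
    refine ⟨fun i hi => ?_, fun i hi j hj hij => ?_⟩
    · obtain rfl : i = 0 := by omega
      exact ⟨rfl, hv⟩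
    · have hne := hv.2.1
      rcases Nat.le_one_iff_eq_zero_or_eq_one.1 hi with rfl | rfl <;>
        rcases Nat.le_one_iff_eq_zero_or_eq_one.1 hj with rfl | rfl
      · rfl
      · exact absurd hij hne
      · exact absurd hij.symm hne
      · rfl
  exact grow_path I h hmax hp (T_of_free I h.1 (acc_sub_T I f 0 he) hv) hv0 he hs

/-- ROW grow (second part). `v ∈ O` moves to the empty open class `e`, then `x` (in a full accessible
class, free for `O`) moves to `O`: the class of `x` is a new open class, `O` has the same size, `e`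
has one vertex. (`v` and `x` are not adjacent.) -/
theorem grow2 {f : V → ℕ} {P : ℕ} (h : I.Near f P) (hmax : I.Maxi f) {e O : ℕ}
    (he : e ∈ I.acc f 0) (hs : cls f e = ∅) (hO : O ∈ I.acc f 0) {v : V} (hv : I.Free f v e)
    (hvO : f v = O) {x : V} (hx : I.Free f x O) (hx0 : f x ∉ I.acc f 0) : False := by
  have hp : I.Path f (fun i => if i = 0 then f x else if i = 1 then O else e)
      (fun i => if i = 0 then x else v) 2 := by
    refine ⟨fun i hi => ?_, fun i hi j hj hij => ?_⟩
    · have h01 : i = 0 ∨ i = 1 := by omega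
      rcases h01 with rfl | rfl
      · exact ⟨rfl, hx⟩
      · exact ⟨hvO, hv⟩
    · have h1 : f x ≠ O := hx.2.1
      have h2 : O ≠ e := hvO ▸ hv.2.1
      have h3 : f x ≠ e := fun hxe => hx0 (hxe ▸ he)
      have hi' : i = 0 ∨ i = 1 ∨ i = 2 := by omega
      have hj' : j = 0 ∨ j = 1 ∨ j = 2 := by omega
      rcases hi' with rfl | rfl | rfl <;> rcases hj' with rfl | rfl | rfl
      · rfl
      · exact absurd hij h1
      · exact absurd hij h3
      · exact absurd hij.symm h1
      · rfl
      · exact absurd hij h2
      · exact absurd hij.symm h3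
      · exact absurd hij.symm h2
      · rfl
  have hq := I.hq
  exact grow_path I h hmax hp (T_of_free I h.1 (acc_sub_T I f 0 hO) hx) hx0 he (by
    show (cls f e).card + 1 < I.q
    rw [hs, card_empty]
    omega)

end Pool.MP_f5167d_co.KM
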