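import Pool.Agent.Lib.MP_f5167d_co.KM.Growth
import Pool.Agent.Lib.MP_f5167d_co.KM.LemA

set_option autoImplicit false

namespace Pool.MP_f5167d_co.KM

open Finset Classical

variable {V : Type} [Fintype V] (I : Inst V)

/-- The movers of level 0 with exactly one free open class. -/
noncomputable def Inst.Pr0 (f : V → ℕ) : Finset V :=
  (I.N f 0).filter (fun v => ∃ O, ∀ d ∈ I.acc f 0, I.Free f v d → d = O)

/-- ROW growth_sum. For `w ∈ vs f T` with `S f P w ≠ ∅` lemA (level of `f w`, acc_zero_le) says that no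
class in `acc f 0` is free for `w`; so `w ∉ N f 0` and `p f w` is the number of free classes in
`T f \ acc f 0`. Exchange the two sums and use growth for every `c ∈ T f \ acc f 0`
(`Priv f 0 O ⊆ Pr0 f`). -/
theorem growth_sum {f : V → ℕ} {P : ℕ} (h : I.Near f P) (hmax : I.Maxi f) :
    ∑ w ∈ (vs f (I.T f)).filter (fun w => I.S f P w ≠ ∅), I.p f w ≤
      ∑ v ∈ I.Pr0 f, ((I.T f \ I.acc f 0).filter (fun c => ¬ I.Free f v c)).card := by
  have hnofree : ∀ w ∈ (vs f (I.T f)).filter (fun w => I.S f P w ≠ ∅),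
      ∀ F ∈ I.acc f 0, ¬ I.Free f w F := by
    intro w hw F hF
    rw [mem_filter, mem_vs] at hw
    obtain ⟨hwT, hwS⟩ := hw
    obtain ⟨y, hy⟩ := Finset.nonempty_iff_ne_empty.2 hwS
    rw [mem_S] at hy
    exact lemA I h hy.1 hy.2 hwT (fun j hj => absurd hj (Nat.not_lt_zero j)) hF
  have hp : ∀ w ∈ (vs f (I.T f)).filter (fun w => I.S f P w ≠ ∅),
      I.p f w ≤ ((I.T f \ I.acc f 0).filter (fun c => I.Free f w c)).card := by
    intro w hw
    rw [Inst.p]
    refine card_le_card ?_
    intro c hc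
    rw [mem_filter] at hc
    rw [mem_filter, mem_sdiff]
    exact ⟨⟨hc.1, fun h0 => hnofree w hw c h0 hc.2⟩, hc.2⟩
  have hN : ∀ w ∈ (vs f (I.T f)).filter (fun w => I.S f P w ≠ ∅), w ∉ I.N f 0 := by
    intro w hw hwN
    obtain ⟨-, d, hd, hfd⟩ := (mem_N I).1 hwN
    exact hnofree w hw d hd hfd
  calc ∑ w ∈ (vs f (I.T f)).filter (fun w => I.S f P w ≠ ∅), I.p f w
      ≤ ∑ w ∈ (vs f (I.T f)).filter (fun w => I.S f P w ≠ ∅),
          ((I.T f \ I.acc f 0).filter (fun c => I.Free f w c)).card := sum_le_sum hp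
    _ = ∑ c ∈ I.T f \ I.acc f 0, (((vs f (I.T f)).filter (fun w => I.S f P w ≠ ∅)).filter
          (fun w => I.Free f w c)).card := by
        simp only [card_filter]
        exact sum_comm
    _ ≤ ∑ c ∈ I.T f \ I.acc f 0, ((I.Pr0 f).filter (fun v => ¬ I.Free f v c)).card := by
        refine sum_le_sum ?_
        intro c hc
        rw [mem_sdiff] at hc
        obtain ⟨O, hO, -, -, hle⟩ := growth I h hmax hc.1 hc.2
        refine le_trans (card_le_card ?_) (le_trans hle (card_le_card ?_))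
        · intro w hw
          rw [mem_filter] at hw
          rw [mem_filter]
          exact ⟨mem_univ w, hN w hw.1, hw.2⟩
        · intro v hv
          rw [mem_filter] at hv
          obtain ⟨-, hvP, hvf⟩ := hv
          obtain ⟨hvN, hvd⟩ := (mem_Priv I).1 hvP
          rw [mem_filter]
          refine ⟨?_, hvf⟩
          rw [Inst.Pr0, mem_filter]
          exact ⟨hvN, O, hvd⟩
    _ = ∑ v ∈ I.Pr0 f, ((I.T f \ I.acc f 0).filter (fun c => ¬ I.Free f v c)).card := by
        simp only [card_filter]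
        exact sum_comm

end Pool.MP_f5167d_co.KM
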