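import Mathlib

set_option autoImplicit false

namespace Pool.MP_f5167d_co.KM.In

/-- monotonicity in the number of solos -/
private lemma mono_s {A s t D x : ℚ} (hA : 0 < A) (hs : A ≤ s) (ht : 0 ≤ t) (hD : 1 ≤ D)
    (hx : 0 ≤ x) : A ^ 2 * x / (A * D + 2 * t) ≤ s ^ 2 * x / (s * D + 2 * t) := by
  have hs0 : 0 < s := lt_of_lt_of_le hA hs
  have h1 : 0 < A * D + 2 * t := by nlinarith [mul_pos hA (lt_of_lt_of_le one_pos hD)]
  have h2 : 0 < s * D + 2 * t := by nlinarith [mul_pos hs0 (lt_of_lt_of_le one_pos hD)]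
  rw [div_le_div_iff₀ h1 h2]
  have h3 : 0 ≤ (s - A) * (s * A * D + 2 * t * (s + A)) := by
    apply mul_nonneg (by linarith)
    have : 0 ≤ s * A * D := by positivity
    have : 0 ≤ 2 * t * (s + A) := by positivity
    linarith
  nlinarith [mul_nonneg hx h3]

/-- **The inequality `B_y ≥ 0`** (real form). `s` solos, `2 t` other neighbours in `T0`,
`D = 1 + d_R(y)`. -/
theorem key {D s t κ u : ℚ} (hD : 1 ≤ D) (hs : 0 ≤ s) (ht : 0 ≤ t) (hκ : 1 ≤ κ)
    (h1 : κ ≤ s + t) (h2 : D + t ≤ u) :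
    κ * (u + κ - 1) / u ≤ s + 2 * t + s ^ 2 * (κ - 1) / (s * D + 2 * t) := by
  have hu : 0 < u := by linarith
  have hDt : 0 < D + t := by linarith
  have hx : 0 ≤ κ - 1 := by linarith
  have e1 : κ * (u + κ - 1) / u = κ + κ * (κ - 1) / u := by field_simp; ring
  rw [e1]
  by_cases hA : κ ≤ t
  · -- no solos needed
    have h3 : κ * (κ - 1) / u ≤ κ := by
      rw [div_le_iff₀ hu]
      apply mul_le_mul_of_nonneg_left _ (by linarith)
      linarith
    have h4 : 0 ≤ s ^ 2 * (κ - 1) / (s * D + 2 * t) := by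
      apply div_nonneg
      · positivity
      · have : 0 ≤ s * D := mul_nonneg hs (by linarith)
        linarith
    linarith
  · push Not at hA
    obtain ⟨A, hAe⟩ : ∃ A, A = κ - t := ⟨_, rfl⟩
    have hA0 : 0 < A := by linarith
    have hκA : κ = A + t := by linarith
    have hsA : A ≤ s := by linarith
    have h3 := mono_s hA0 hsA ht hD hx
    have h4 : κ * (κ - 1) / u ≤ κ * (κ - 1) / (D + t) := by
      apply div_le_div_of_nonneg_left _ hDt h2
      exact mul_nonneg (by linarith) hx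
    have h5 : 0 < A * D + 2 * t := by nlinarith [mul_pos hA0 (lt_of_lt_of_le one_pos hD)]
    have h6 : κ * (κ - 1) / (D + t) ≤ t + A ^ 2 * (κ - 1) / (A * D + 2 * t) := by
      have e2 : t + A ^ 2 * (κ - 1) / (A * D + 2 * t) =
          (t * (A * D + 2 * t) + A ^ 2 * (κ - 1)) / (A * D + 2 * t) := by
        field_simp
      rw [e2, div_le_div_iff₀ hDt h5]
      have hQ : 0 ≤ A ^ 2 - (3 + D) * A + D ^ 2 + D + 2 := by
        nlinarith [sq_nonneg (2 * A - (3 + D)), mul_nonneg (sub_nonneg.2 hD) (by linarith : 0 ≤ 1 + 3 * D)]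
      have hR : 0 ≤ (A - 2) ^ 2 + 2 * D - 2 := by nlinarith [sq_nonneg (A - 2)]
      have h7 : 0 ≤ t * (A * (A ^ 2 - (3 + D) * A + D ^ 2 + D + 2) + t * ((A - 2) ^ 2 + 2 * D - 2)) :=
        mul_nonneg ht (add_nonneg (mul_nonneg hA0.le hQ) (mul_nonneg ht hR))
      have e3 : (t * (A * D + 2 * t) + A ^ 2 * (κ - 1)) * (D + t) - κ * (κ - 1) * (A * D + 2 * t) =
          t * (A * (A ^ 2 - (3 + D) * A + D ^ 2 + D + 2) + t * ((A - 2) ^ 2 + 2 * D - 2)) := by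
        rw [hκA]; ring
      linarith
    linarith

/-- harmonic mean: `s` solos with `|S_w| ≤ D + m_W`, `∑ m_W ≤ N` -/
theorem harm {ι : Type*} (S : Finset ι) (q : ι → ℚ) (D N : ℚ) (hq : ∀ i ∈ S, 0 < q i)
    (hsum : ∑ i ∈ S, q i ≤ (S.card : ℚ) * D + N) (hN : 0 ≤ N) (hD : 1 ≤ D) {x : ℚ} (hx : 0 ≤ x) :
    (S.card : ℚ) ^ 2 * x / ((S.card : ℚ) * D + N) ≤ ∑ i ∈ S, x / q i := by
  rcases S.eq_empty_or_nonempty with h0 | h0
  · subst h0; simp
  have hc : (0 : ℚ) < S.card := by exact_mod_cast h0.card_pos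
  have hs0 : 0 < ∑ i ∈ S, q i := Finset.sum_pos hq h0
  have h1 : (S.card : ℚ) ^ 2 / ∑ i ∈ S, q i ≤ ∑ i ∈ S, 1 / q i := by
    have := Finset.sq_sum_div_le_sum_sq_div S (fun _ => (1 : ℚ)) hq
    simpa using this
  have h2 : (S.card : ℚ) ^ 2 * x / ((S.card : ℚ) * D + N) ≤
      (S.card : ℚ) ^ 2 * x / ∑ i ∈ S, q i := by
    apply div_le_div_of_nonneg_left (by positivity) hs0 hsum
  calc _ ≤ _ := h2
    _ = ((S.card : ℚ) ^ 2 / ∑ i ∈ S, q i) * x := by ring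
    _ ≤ (∑ i ∈ S, 1 / q i) * x := mul_le_mul_of_nonneg_right h1 hx
    _ = ∑ i ∈ S, x / q i := by rw [Finset.sum_mul]; exact Finset.sum_congr rfl fun i _ => by ring

end Pool.MP_f5167d_co.KM.In

namespace Pool.MP_f5167d_co.KM

open Finset

/-- The inequality `B_y ≥ 0`. -/
theorem key_ineq {ι : Type} (σ : Finset ι) (m : ι → ℕ) (u K a D N : ℕ) (hu : 1 ≤ u)
    (hD : 1 ≤ D) (ha : K + 1 ≤ a) (h2 : 2 * a ≤ N + 2 * σ.card)
    (hdeg : D + σ.card + N ≤ u + a) (hm : ∑ i ∈ σ, m i ≤ N) :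
    ((K : ℚ) + 1) * ((u : ℚ) + K) / u ≤
      (σ.card : ℚ) + N + ∑ i ∈ σ, (K : ℚ) / ((D : ℚ) + m i) := by
  have hD' : (1 : ℚ) ≤ D := by exact_mod_cast hD
  have hN' : (0 : ℚ) ≤ N := by positivity
  have hK' : (0 : ℚ) ≤ K := by positivity
  have hk := In.key (D := (D : ℚ)) (s := (σ.card : ℚ)) (t := (N : ℚ) / 2) (κ := (K : ℚ) + 1)
    (u := (u : ℚ)) hD' (by positivity) (by positivity) (by linarith) (by
      have h : K + 1 ≤ a := ha
      have h1 : 2 * (K + 1) ≤ N + 2 * σ.card := by omega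
      have h3 : (2 : ℚ) * (K + 1) ≤ N + 2 * σ.card := by exact_mod_cast h1
      linarith) (by
      have h1 : 2 * D + N ≤ 2 * u := by omega
      have h3 : (2 : ℚ) * D + N ≤ 2 * u := by exact_mod_cast h1
      linarith)
  have hh := In.harm σ (fun i => (D : ℚ) + m i) (D : ℚ) (N : ℚ)
    (fun i _ => by positivity) (by
      rw [sum_add_distrib, sum_const, nsmul_eq_mul]
      have : ((∑ i ∈ σ, m i : ℕ) : ℚ) ≤ N := by exact_mod_cast hm
      rw [Nat.cast_sum] at this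
      linarith) hN' hD' hK'
  have e1 : ((K : ℚ) + 1) * ((u : ℚ) + K) / u = ((K : ℚ) + 1) * ((u : ℚ) + ((K : ℚ) + 1) - 1) / u := by
    congr 2; ring
  have e2 : (σ.card : ℚ) ^ 2 * (((K : ℚ) + 1) - 1) / ((σ.card : ℚ) * D + 2 * ((N : ℚ) / 2)) =
      (σ.card : ℚ) ^ 2 * (K : ℚ) / ((σ.card : ℚ) * D + N) := by
    congr 1 <;> ring
  rw [e1]
  rw [e2] at hk
  linarith

end Pool.MP_f5167d_co.KM
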