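import Pool.Agent.Lib.MP_f5167d_co.KM.Basic

set_option autoImplicit false

namespace Pool.MP_f5167d_co.KM

open Finset Classical

variable {V : Type} [Fintype V] (I : Inst V)

/-- Move `y` into the class of `w` and `w` into the class `Z`. -/
noncomputable def upd (g : V → ℕ) (y w : V) (Z : ℕ) : V → ℕ :=
  fun x => if x = w then Z else if x = y then g w else g x

theorem upd_w (g : V → ℕ) (y w : V) (Z : ℕ) : upd g y w Z w = Z := by
  simp [upd]

theorem upd_y (g : V → ℕ) {y w : V} (h : y ≠ w) (Z : ℕ) : upd g y w Z y = g w := by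
  simp [upd, h]

theorem upd_other (g : V → ℕ) {y w x : V} (h1 : x ≠ w) (h2 : x ≠ y) (Z : ℕ) :
    upd g y w Z x = g x := by
  simp [upd, h1, h2]

/-- ROW upd (with the four following lemmas). -/
theorem upd_col {g : V → ℕ} (hg : I.Col g) {y w : V} (hs : I.Solo g y w) {Z : ℕ}
    (hZ : Z ∈ I.L w) (hZw : Z ≠ g w) (hZn : ∀ x, I.G.Adj w x → g x = Z → x = y) :
    I.Col (upd g y w Z) := by
  obtain ⟨h1, h2, h3⟩ := hs
  have hyw : y ≠ w := h2.ne
  have key : ∀ a b, I.G.Adj a b → a = w → upd g y w Z a ≠ upd g y w Z b := by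
    intro a b hab ha
    subst ha
    rw [upd_w]
    have hba : b ≠ a := hab.ne'
    by_cases hb : b = y
    · subst hb
      rw [upd_y g hyw]
      exact hZw
    · rw [upd_other g hba hb]
      intro h
      exact hb (hZn b hab h.symm)
  have key2 : ∀ a b, I.G.Adj a b → a = y → b ≠ w → upd g y w Z a ≠ upd g y w Z b := by
    intro a b hab ha hb
    subst ha
    rw [upd_y g hyw, upd_other g hb hab.ne']
    intro h
    exact hb (h3 b hab h.symm)
  constructor
  · intro v
    by_cases hv : v = w
    · subst hv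
      rw [upd_w]
      exact hZ
    · by_cases hv' : v = y
      · subst hv'
        rw [upd_y g hyw]
        exact h1
      · rw [upd_other g hv hv']
        exact hg.1 v
  · intro a b hab
    by_cases ha : a = w
    · exact key a b hab ha
    · by_cases hb : b = w
      · exact (key b a hab.symm hb).symm
      · by_cases ha' : a = y
        · exact key2 a b hab ha' hb
        · by_cases hb' : b = y
          · exact (key2 b a hab.symm hb' ha).symm
          · rw [upd_other g ha ha', upd_other g hb hb']
            exact hg.2 a b hab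

theorem upd_card {g : V → ℕ} (hg : I.Col g) {y w : V} (hs : I.Solo g y w) {Z : ℕ}
    (hZw : Z ≠ g w) (d : ℕ) :
    (cls (upd g y w Z) d).card + (if d = g y then 1 else 0) =
      (cls g d).card + (if d = Z then 1 else 0) := by
  have hyw : y ≠ w := hs.2.1.ne
  have key : ∀ h : V → ℕ, ∑ x, h x = h w + (h y + ∑ x ∈ (univ.erase w).erase y, h x) := by
    intro h
    rw [Finset.add_sum_erase (univ.erase w) h (by simp [hyw]),
      Finset.add_sum_erase univ h (mem_univ w)]
  unfold cls
  rw [Finset.card_filter, Finset.card_filter, key, key]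
  have hrest : ∑ x ∈ (univ.erase w).erase y, (if upd g y w Z x = d then 1 else 0)
      = ∑ x ∈ (univ.erase w).erase y, (if g x = d then 1 else 0) := by
    apply Finset.sum_congr rfl
    intro x hx
    rw [mem_erase, mem_erase] at hx
    rw [upd_other g hx.2.1 hx.1]
  rw [hrest, upd_w, upd_y g hyw]
  have e1 : (if Z = d then (1 : ℕ) else 0) = if d = Z then 1 else 0 := by
    by_cases h : d = Z
    · simp [h]
    · have h' : Z ≠ d := fun h2 => h h2.symm
      simp [h, h']
  have e2 : (if g y = d then (1 : ℕ) else 0) = if d = g y then 1 else 0 := by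
    by_cases h : d = g y
    · simp [h]
    · have h' : g y ≠ d := fun h2 => h h2.symm
      simp [h, h']
  rw [e1, e2]
  omega

theorem upd_eq {g : V → ℕ} {y w : V} {Z : ℕ} {d : ℕ} (hW : d ≠ g w) (hZ : d ≠ Z)
    (hy : d ≠ g y) (x : V) : upd g y w Z x = d ↔ g x = d := by
  by_cases hx : x = w
  · subst hx
    rw [upd_w]
    exact ⟨fun h => absurd h.symm hZ, fun h => absurd h.symm hW⟩
  · by_cases hx' : x = y
    · subst hx'
      rw [upd_y g hx]
      exact ⟨fun h => absurd h.symm hW, fun h => absurd h.symm hy⟩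
    · rw [upd_other g hx hx']

theorem upd_near {g : V → ℕ} {P : ℕ} (h : I.Near g P) {y w : V} (hy : g y = P)
    (hs : I.Solo g y w) {Z : ℕ} (hZ : Z ∈ I.L w) (hZw : Z ≠ g w)
    (hZn : ∀ x, I.G.Adj w x → g x = Z → x = y) (hZ0 : Z ∉ I.acc g 0) :
    I.Near (upd g y w Z) Z := by
  refine ⟨upd_col I h.1 hs hZ hZw hZn, ?_, ?_⟩
  · have h1 := upd_card I h.1 hs hZw Z
    rw [if_pos rfl, hy] at h1
    by_cases hZP : Z = P
    · rw [if_pos hZP] at h1
      have h2 := h.2.1
      rw [← hZP] at h2
      omega
    · rw [if_neg hZP] at h1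
      have h2 := full_card I h (L_sub_Pal I w hZ) hZP hZ0
      omega
  · intro c hc
    have h1 := upd_card I h.1 hs hZw c
    rw [if_neg hc, hy] at h1
    by_cases hcP : c = P
    · rw [if_pos hcP] at h1
      have h2 := h.2.1
      rw [← hcP] at h2
      omega
    · rw [if_neg hcP] at h1
      have h2 := h.2.2 c hcP
      omega

end Pool.MP_f5167d_co.KM
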