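import Pool.Agent.Lib.MP_f5167d_co.KM.RT
import Pool.Agent.Lib.MP_f5167d_co.KM.AccPath
import Pool.Agent.Lib.MP_f5167d_co.KM.PathShift
import Pool.Agent.Lib.MP_f5167d_co.KM.Upd

set_option autoImplicit false

namespace Pool.MP_f5167d_co.KM

open Finset Classical

variable {V : Type} [Fintype V] (I : Inst V)

/-- ROW lemA0. Lemma A for `y` in the surplus class. `F` has a level `i' ≤ i` (exists_lev_le); take its
path (acc_path) `c 0 = F, ..., c i'` (level 0). No `c t` is `P` (R_disj_T, P_mem_R) and none is
`W = g w` (`c 0 = F ≠ g w` by `Free`, the others have level `< i' ≤ i`, hW). `g' = upd g y w F` is a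
proper colouring (upd_col; `F` has no neighbour of `w` at all), the path is still a path for `g'`
(only the classes `P`, `W`, `F` have changed, and `F` only by the new vertex `w`); shift along it
(path_shift). In the result `P` has `q`, `W` and `F` are as in `g` (if `i' ≠ 0`), the open class at the
end has one more; everything is `≤ q`: contradiction to `I.noex`. -/
theorem lemA0 {g : V → ℕ} {P : ℕ} (h : I.Near g P) {y w : V} (hy : g y = P)
    (hs : I.Solo g y w) {i F : ℕ} (hW : ∀ j < i, g w ∉ I.acc g j) (hF : F ∈ I.acc g i)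
    (hfree : I.Free g w F) : False := by
  obtain ⟨i', hi', hlev⟩ := exists_lev_le I hF
  obtain ⟨c, v, hpath, hc0, hcl⟩ := acc_path I h.1 y hlev
  have hPT : P ∉ I.T g := R_disj_T I h (P_mem_R I h)
  have hcP : ∀ t ≤ i', c t ≠ P := by
    intro t ht hct
    apply hPT
    rw [← hct]
    exact acc_sub_T I g _ (hcl t ht).1
  have hcW : ∀ t ≤ i', c t ≠ g w := by
    intro t ht hct
    rcases Nat.eq_zero_or_pos t with h0 | h0
    · rw [h0, hc0] at hct
      exact hfree.2.1 hct.symm
    · have h1 := (hcl t ht).1
      rw [hct] at h1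
      exact hW (i' - t) (by omega) h1
  have hcF : ∀ t < i', c (t + 1) ≠ F := by
    intro t ht hct
    have h1 := hpath.2 (t + 1) (by omega) 0 (by omega) (by rw [hct, hc0])
    omega
  have hcol' : I.Col (upd g y w F) :=
    upd_col I h.1 hs hfree.1 (fun e => hfree.2.1 e.symm)
      (fun x hx hxF => absurd hxF (hfree.2.2 x hx))
  have hval : ∀ t < i', upd g y w F (v t) = c t := by
    intro t ht
    have h1 := (hpath.1 t ht).1
    have hw : v t ≠ w := by
      intro e
      rw [e] at h1
      exact hcW t (by omega) h1.symm
    have hy' : v t ≠ y := by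
      intro e
      rw [e, hy] at h1
      exact hcP t (by omega) h1.symm
    show (if v t = w then F else if v t = y then g w else g (v t)) = c t
    rw [if_neg hw, if_neg hy', h1]
  have hpath' : I.Path (upd g y w F) c v i' := by
    refine ⟨fun t ht => ⟨hval t ht, ?_, ?_, ?_⟩, hpath.2⟩
    · exact (hpath.1 t ht).2.1
    · rw [hval t ht]
      have h2 := (hpath.1 t ht).2.2.1
      rw [(hpath.1 t ht).1] at h2
      exact h2
    · intro x hx
      show (if x = w then F else if x = y then g w else g x) ≠ c (t + 1)
      split_ifs with hxw hxy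
      · exact fun e => hcF t ht e.symm
      · exact fun e => hcW (t + 1) (by omega) e.symm
      · exact (hpath.1 t ht).2.2.2 x hx
  obtain ⟨g2, hg2, -, -, hcard⟩ := path_shift I hcol' hpath'
  apply I.noex g2 hg2.1 hg2.2
  intro d
  have e1 := hcard d
  have e2 := upd_card I h.1 hs (Z := F) (fun e => hfree.2.1 e.symm) d
  rw [hc0] at e1
  rw [hy] at e2
  have hlast : c i' ≠ P := hcP i' le_rfl
  have hopen : (cls g (c i')).card < I.q := by
    have h1 := (hcl i' le_rfl).1
    rw [Nat.sub_self] at h1
    exact ((mem_acc_zero I).1 h1).2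
  change (cls g2 d).card ≤ I.q
  by_cases hdP : d = P
  · have hdc : ¬ d = c i' := by
      rw [hdP]
      exact fun e => hlast e.symm
    rw [if_neg hdc] at e1
    rw [if_pos hdP] at e2
    have h3 : (cls g d).card = I.q + 1 := by
      rw [hdP]
      exact h.2.1
    omega
  · rw [if_neg hdP] at e2
    by_cases hdc : d = c i'
    · rw [if_pos hdc] at e1
      have h3 : (cls g d).card < I.q := by
        rw [hdc]
        exact hopen
      omega
    · rw [if_neg hdc] at e1
      have h3 := h.2.2 d hdP
      omega

end Pool.MP_f5167d_co.KM
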