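import Pool.Agent.Lib.MP_f5167d_co.KM.Basic

set_option autoImplicit false

namespace Pool.MP_f5167d_co.KM

open Finset Classical

variable {V : Type} [Fintype V] (I : Inst V)

/-- ROW exists_target. `L w` without `g w` has at least `k - 1` colours, `w` has at most `k - 2`
neighbours different from `y`. -/
theorem exists_target {g : V → ℕ} {y w : V} (h : I.G.Adj w y) :
    ∃ Z ∈ I.L w, Z ≠ g w ∧ ∀ x, I.G.Adj w x → g x = Z → x = y := by
  set N : Finset V := univ.filter (fun x => I.G.Adj w x) with hN
  have hNk : N.card < I.k := I.hdeg w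
  have hyN : y ∈ N := by simp [hN, h]
  have h1 : (N.erase y).card + 1 = N.card := Finset.card_erase_add_one hyN
  have h2 : ((N.erase y).image g).card ≤ (N.erase y).card := Finset.card_image_le
  have h3 : (I.L w).card ≤ ((I.L w).erase (g w)).card + 1 := by
    have := Finset.pred_card_le_card_erase (s := I.L w) (a := g w); omega
  have h4 : ((N.erase y).image g).card < ((I.L w).erase (g w)).card := by
    have := I.hk w
    omega
  obtain ⟨Z, hZ, hZA⟩ := Finset.exists_mem_notMem_of_card_lt_card h4
  rw [Finset.mem_erase] at hZ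
  refine ⟨Z, hZ.2, hZ.1, fun x hx hgx => ?_⟩
  by_contra hne
  apply hZA
  rw [Finset.mem_image]
  exact ⟨x, Finset.mem_erase.2 ⟨hne, by simp [hN, hx]⟩, hgx⟩

end Pool.MP_f5167d_co.KM
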