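import Pool.Agent.Lib.MP_f5167d_co.KM.UpdAcc

set_option autoImplicit false

namespace Pool.MP_f5167d_co.KM

open Finset Classical

variable {V : Type} [Fintype V] (I : Inst V)

/-- ROW upd_N. The movers of level `i` of `g' = upd g y w Z`: all movers of level `i` of `g` are
movers of `g'`, except possibly the neighbours of `y` in `Priv g i (g w)`; and every `v` in a class of
`S`, solo at `w`, not adjacent to `y` and different from `y`, is a mover of `g'` (its only neighbour
`w` in the class of `w` has left, `y` is not its neighbour) and is not a mover of `g` (`S` is closed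
and has no accessible class). `hacc` : layers up to `i` are the same (upd_acc). -/
theorem upd_N {g : V → ℕ} {P : ℕ} (h : I.Near g P) {y w : V} (hy : g y = P)
    (hs : I.Solo g y w) {Z : ℕ} (hZw : Z ≠ g w) {i : ℕ} (hW : I.Lev g (g w) i)
    (hZ : Z ∉ I.acc g i) (hyT : g y ∉ I.T g)
    (hwf : ∀ d ∈ I.acc g i, ¬ I.Free g w d)
    (hacc : I.acc (upd g y w Z) i = I.acc g i)
    (S : Finset ℕ) (hPS : P ∈ S) (hS : ∀ x, g x ∈ S → ∀ d, I.Free g x d → d ∈ S)
    (hST : ∀ c ∈ S, c ∉ I.T g) :
    (I.N g i \ (I.Priv g i (g w)).filter (fun v => I.G.Adj y v)) ∪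
      univ.filter (fun v => g v ∈ S ∧ I.Solo g v w ∧ ¬ I.G.Adj y v ∧ v ≠ y) ⊆
        I.N (upd g y w Z) i ∧
    Disjoint (I.N g i)
      (univ.filter (fun v => g v ∈ S ∧ I.Solo g v w ∧ ¬ I.G.Adj y v ∧ v ≠ y)) := by
  have hcol : I.Col g := h.1
  have hgw : upd g y w Z w = Z := by simp [upd]
  have hgo : ∀ x, x ≠ w → x ≠ y → upd g y w Z x = g x := by
    intro x hxw hxy
    simp [upd, hxw, hxy]
  refine ⟨?_, ?_⟩
  · intro v hv
    rw [mem_union] at hv
    rcases hv with hv | hv
    · rw [mem_sdiff] at hv
      obtain ⟨hvN, hvP⟩ := hv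
      have hvN' := (mem_N I).1 hvN
      obtain ⟨hv0, d, hd, hfd⟩ := hvN'
      have hvw : v ≠ w := by
        rintro rfl
        exact hwf d hd hfd
      have hvy : v ≠ y := by
        rintro rfl
        exact hyT (T_of_free I hcol (acc_sub_T I g i hd) hfd)
      have hgv := hgo v hvw hvy
      rw [mem_N]
      refine ⟨?_, ?_⟩
      · rw [hacc, hgv]
        exact hv0
      · by_cases hex : ∃ e ∈ I.acc g i, I.Free g v e ∧ e ≠ g w
        · obtain ⟨e, he, hfe, hew⟩ := hex
          refine ⟨e, ?_, ?_⟩
          · rw [hacc]
            exact he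
          · refine (upd_free I hew ?_ ?_ v).2 hfe
            · rintro rfl
              exact hZ he
            · rintro rfl
              exact hyT (acc_sub_T I g i he)
        · have hall : ∀ e ∈ I.acc g i, I.Free g v e → e = g w := by
            intro e he hfe
            by_contra hne
            exact hex ⟨e, he, hfe, hne⟩
          have hnadj : ¬ I.G.Adj y v := by
            intro hadj
            exact hvP (mem_filter.2 ⟨(mem_Priv I).2 ⟨hvN, hall⟩, hadj⟩)
          have hdw : d = g w := hall d hd hfd
          rw [hdw] at hfd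
          refine ⟨g w, ?_, ?_⟩
          · rw [hacc]
            exact hW.1
          · refine ⟨hfd.1, ?_, ?_⟩
            · rw [hgv]
              exact hfd.2.1
            · intro x hx
              by_cases hxw : x = w
              · rw [hxw, hgw]
                exact hZw
              · by_cases hxy : x = y
                · rw [hxy] at hx
                  exact absurd hx.symm hnadj
                · rw [hgo x hxw hxy]
                  exact hfd.2.2 x hx
    · rw [mem_filter] at hv
      obtain ⟨-, hvS, hvs, hvn, hvy⟩ := hv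
      have hvw : v ≠ w := hvs.2.1.ne
      have hgv := hgo v hvw hvy
      rw [mem_N]
      refine ⟨Or.inr ?_, g w, ?_, ?_⟩
      · rw [hacc, hgv]
        exact fun hc => hST (g v) hvS (acc_sub_T I g i hc)
      · rw [hacc]
        exact hW.1
      · refine ⟨hvs.1, ?_, ?_⟩
        · rw [hgv]
          exact hcol.2 v w hvs.2.1
        · intro x hx
          by_cases hxw : x = w
          · rw [hxw, hgw]
            exact hZw
          · by_cases hxy : x = y
            · rw [hxy] at hx
              exact absurd hx.symm hvn
            · rw [hgo x hxw hxy]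
              exact fun hc => hxw (hvs.2.2 x hx hc)
  · rw [Finset.disjoint_left]
    intro v hvN hv
    rw [mem_filter] at hv
    obtain ⟨-, hvS, -, -, -⟩ := hv
    obtain ⟨-, d, hd, hfd⟩ := (mem_N I).1 hvN
    exact hST d (hS v hvS d hfd) (acc_sub_T I g i hd)

end Pool.MP_f5167d_co.KM
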