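import Pool.Agent.Lib.MP_f5167d_co.KM.LemA
import Pool.Agent.Lib.MP_f5167d_co.KM.UpdN
import Pool.Agent.Lib.MP_f5167d_co.KM.Target

set_option autoImplicit false

namespace Pool.MP_f5167d_co.KM

open Finset Classical

variable {V : Type} [Fintype V] (I : Inst V)

/-- ROW lemB0. Lemma B for `y` in the surplus class. Take `Z` from exists_target (for `w`, `y`).
`Z ∉ acc g i` by lemA0 (no neighbour of `w` other than `y` is in `Z`, and `g y = P ∉ T g`, so `Z` in
`acc g i` would be free for `w`). `g' = upd g y w Z` is a near-colouring with surplus class `Z`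
(upd_near), the coordinates before the `i`-th mover number are the same (upd_acc), so by `Maxi`
`(N g' i).card ≤ (N g i).card`; conclude with upd_N and card computations. -/
theorem lemB0 {g : V → ℕ} {P : ℕ} (h : I.Near g P) (hmax : I.Maxi g) {y w : V} (hy : g y = P)
    (hs : I.Solo g y w) {i : ℕ} (hW : I.Lev g (g w) i) (S : Finset ℕ) (hPS : P ∈ S)
    (hS : ∀ x, g x ∈ S → ∀ d, I.Free g x d → d ∈ S) (hST : ∀ c ∈ S, c ∉ I.T g) :
    (univ.filter (fun v => g v ∈ S ∧ I.Solo g v w ∧ ¬ I.G.Adj y v ∧ v ≠ y)).card ≤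
      ((I.Priv g i (g w)).filter (fun v => I.G.Adj y v)).card := by
  have hyT : g y ∉ I.T g := by
    rw [hy]
    exact hST P hPS
  have hwf : ∀ d ∈ I.acc g i, ¬ I.Free g w d := fun d hd hfr =>
    lemA0 I h hy hs hW.2 hd hfr
  obtain ⟨Z, hZL, hZw, hZn⟩ := exists_target I (g := g) hs.2.1.symm
  have hZ : Z ∉ I.acc g i := by
    intro hmem
    refine hwf Z hmem ⟨hZL, fun e => hZw e.symm, ?_⟩
    intro x hx hgx
    have hxy : x = y := hZn x hx hgx
    apply hyT
    rw [← hxy, hgx]
    exact acc_sub_T I g i hmem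
  have hZ0 : Z ∉ I.acc g 0 := fun hm => hZ (acc_zero_le I g i hm)
  have hnear : I.Near (upd g y w Z) Z := upd_near I h hy hs hZL hZw hZn hZ0
  obtain ⟨ha, hb⟩ := upd_acc I h hy hs hZw hW hZ hyT hwf
  have hm := (hmax (upd g y w Z) Z hnear i (fun j hj =>
    ⟨by rw [ha j hj.le], by rw [hb j hj]⟩)).2 (by rw [ha i le_rfl])
  obtain ⟨hsub, hdisj⟩ := upd_N I h hy hs hZw hW hZ hyT hwf (ha i le_rfl) S hPS hS hST
  have hA : (I.Priv g i (g w)).filter (fun v => I.G.Adj y v) ⊆ I.N g i :=
    (filter_subset _ _).trans (filter_subset _ _)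
  have h1 := card_le_card hsub
  rw [card_union_of_disjoint (disjoint_of_subset_left sdiff_subset hdisj),
    card_sdiff_of_subset hA] at h1
  have h2 := card_le_card hA
  omega

/-- ROW lemB0 (second part). Lemma B, from transfer and lemB0 with `S = R f P`:
`S f P w` is contained in (the set of lemB0) ∪ {y} ∪ {v | Adj y v, f v ∈ R f P}. -/
theorem lemB {f : V → ℕ} {P : ℕ} (h : I.Near f P) (hmax : I.Maxi f) {y w : V}
    (hy : f y ∈ I.R f P) (hs : I.Solo f y w) {i : ℕ} (hW : I.Lev f (f w) i) :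
    (I.S f P w).card ≤ (1 + I.dg f (I.R f P) y) +
      ((I.Priv f i (f w)).filter (fun v => I.G.Adj y v)).card := by
  obtain ⟨g, hg1, hg2, hg3, hg4, -, hg6, -, hg8, hg9, hg10, hg11, hg12⟩ := transfer I h hy
  have hwT : f w ∈ I.T f := acc_sub_T I f i hW.1
  have hwR : f w ∉ I.R f P := fun hm => R_disj_T I h hm hwT
  have hgw : g w = f w := hg3 w hwR
  have hsg : I.Solo g y w := (hg10 w hwT y).2 hs
  have hWg : I.Lev g (g w) i := by
    rw [hgw]
    refine ⟨?_, fun j hj => ?_⟩
    · rw [hg6 i]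
      exact hW.1
    · rw [hg6 j]
      exact hW.2 j hj
  have hmain := lemB0 I hg1 (hg12 hmax) hg2 hsg hWg (I.R f P) hy hg9
    (fun c hc => by
      rw [hg8]
      exact R_disj_T I h hc)
  rw [hgw, hg11 i (f w)] at hmain
  have hsub : I.S f P w ⊆
      (univ.filter (fun v => g v ∈ I.R f P ∧ I.Solo g v w ∧ ¬ I.G.Adj y v ∧ v ≠ y)) ∪
        ({y} ∪ univ.filter (fun x => I.G.Adj y x ∧ f x ∈ I.R f P)) := by
    intro v hv
    obtain ⟨hv1, hv2⟩ := (mem_S I).1 hv
    by_cases hvy : v = y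
    · exact mem_union_right _ (mem_union_left _ (mem_singleton.2 hvy))
    · by_cases hadj : I.G.Adj y v
      · exact mem_union_right _ (mem_union_right _
          (mem_filter.2 ⟨mem_univ _, hadj, hv1⟩))
      · exact mem_union_left _ (mem_filter.2
          ⟨mem_univ _, (hg4 v).2 hv1, (hg10 w hwT v).2 hv2, hadj, hvy⟩)
  have h1 := card_le_card hsub
  have h2 := h1.trans (card_union_le _ _)
  have h3 := card_union_le ({y} : Finset V)
    (univ.filter (fun x => I.G.Adj y x ∧ f x ∈ I.R f P))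
  rw [card_singleton] at h3
  have h4 : I.dg f (I.R f P) y =
      (univ.filter (fun x => I.G.Adj y x ∧ f x ∈ I.R f P)).card := rfl
  rw [h4]
  omega

end Pool.MP_f5167d_co.KM
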