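import Pool.Agent.Lib.MP_f5167d_co.KM.Basic

set_option autoImplicit false

namespace Pool.MP_f5167d_co.KM

open Finset Classical

variable {V : Type} [Fintype V] (I : Inst V)

/-- ROW exists_maxi. Lexicographic maximum. Finite nonempty set of all `f` in
`Fintype.piFinset I.L` with `∃ P, Near f P` (membership in the lists is part of `Col`); map `f` to
`toLex (fun n => if n % 2 = 0 then (acc f (n/2)).card else (N f (n/2)).card) : Lex (ℕ → ℕ)`, a linear
order (Pi.Lex), and take a maximal image (`Finset.exists_max_image`); or do it by hand. -/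
theorem exists_maxi (h : ∃ f P, I.Near f P) : ∃ f P, I.Near f P ∧ I.Maxi f := by
  obtain ⟨f0, P0, hf0⟩ := h
  let φ : (V → ℕ) → ℕ → ℕ := fun f n =>
    if n % 2 = 0 then (I.acc f (n / 2)).card else (I.N f (n / 2)).card
  have hφ0 : ∀ f j, φ f (2 * j) = (I.acc f j).card := by
    intro f j
    have h1 : 2 * j % 2 = 0 := by omega
    have h2 : 2 * j / 2 = j := by omega
    simp only [φ, h1, h2, if_true]
  have hφ1 : ∀ f j, φ f (2 * j + 1) = (I.N f j).card := by
    intro f j
    have h1 : ¬ ((2 * j + 1) % 2 = 0) := by omega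
    have h2 : (2 * j + 1) / 2 = j := by omega
    simp only [φ, h1, h2, if_false]
  let s : Finset (V → ℕ) := (Fintype.piFinset I.L).filter (fun f => ∃ P, I.Near f P)
  have hs : ∀ f, f ∈ s ↔ ∃ P, I.Near f P := by
    intro f
    simp only [s, mem_filter, Fintype.mem_piFinset]
    constructor
    · exact fun h => h.2
    · rintro ⟨P, hP⟩
      exact ⟨hP.1.1, P, hP⟩
  have hne : s.Nonempty := ⟨f0, (hs f0).2 ⟨P0, hf0⟩⟩
  obtain ⟨f, hf, hmax⟩ := Finset.exists_max_image s (fun f => toLex (φ f)) hne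
  obtain ⟨P, hP⟩ := (hs f).1 hf
  have key : ∀ (g : V → ℕ) (Q : ℕ), I.Near g Q → ∀ n, (∀ m < n, φ g m = φ f m) →
      φ g n ≤ φ f n := by
    intro g Q hg n hn
    by_contra hlt
    have hlt : φ f n < φ g n := not_le.1 hlt
    have h1 := hmax g ((hs g).2 ⟨Q, hg⟩)
    have h2 : toLex (φ f) < toLex (φ g) := ⟨n, fun m hm => (hn m hm).symm, hlt⟩
    exact absurd h1 (not_le.2 h2)
  have low : ∀ (g : V → ℕ) (i : ℕ), (∀ j < i, (I.acc g j).card = (I.acc f j).card ∧
      (I.N g j).card = (I.N f j).card) → ∀ m < 2 * i, φ g m = φ f m := by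
    intro g i hi m hm
    have hj := hi (m / 2) (by omega)
    rcases Nat.mod_two_eq_zero_or_one m with h0 | h0
    · have h1 : m = 2 * (m / 2) := by omega
      rw [h1, hφ0, hφ0]
      exact hj.1
    · have h1 : m = 2 * (m / 2) + 1 := by omega
      rw [h1, hφ1, hφ1]
      exact hj.2
  refine ⟨f, P, hP, ?_⟩
  intro g Q hg i hi
  constructor
  · have h1 := key g Q hg (2 * i) (low g i hi)
    rwa [hφ0, hφ0] at h1
  · intro heq
    have h1 := key g Q hg (2 * i + 1) (by
      intro m hm
      rcases Nat.lt_or_ge m (2 * i) with h2 | h2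
      · exact low g i hi m h2
      · have h3 : m = 2 * i := by omega
        rw [h3, hφ0, hφ0]
        exact heq)
    rwa [hφ1, hφ1] at h1

end Pool.MP_f5167d_co.KM
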