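import Pool.Agent.Lib.MP_f5167d_co.KM.GrowthSum
import Pool.Agent.Lib.MP_f5167d_co.KM.Count

set_option autoImplicit false

namespace Pool.MP_f5167d_co.KM

open Finset Classical

variable {V : Type} [Fintype V] (I : Inst V)

/-- ROW small_case. For `v ∈ Pr0 f`: `f v ∈ T f` (mem_acc_of_free), `S f P v = ∅` (else lemA, as
`v ∈ N f 0`), `p f v = 1 + #{c ∈ T f \ acc f 0 : Free f v c}` (exactly one free class in `acc f 0`),
so `#{c ∈ T f \ acc f 0 : ¬ Free f v c} = (T f \ acc f 0).card + 1 - p f v ≤ K - p f v`. Contradiction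
between growth_sum and count. -/
theorem small_case {f : V → ℕ} {P : ℕ} (h : I.Near f P) (hmax : I.Maxi f) {K : ℕ}
    (hK : (I.R f P).card + (I.J f P).card + K + 1 = I.k)
    (hN : (I.T f \ I.acc f 0).card < K) : False := by
  have h1 := count I h hmax hK
  have h2 := growth_sum I h hmax
  have h3 : ∑ v ∈ I.Pr0 f, ((I.T f \ I.acc f 0).filter (fun c => ¬ I.Free f v c)).card ≤
      ∑ w ∈ (vs f (I.T f)).filter (fun w => I.S f P w = ∅), (K - I.p f w) := by
    have h4 : I.Pr0 f ⊆ (vs f (I.T f)).filter (fun w => I.S f P w = ∅) := by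
      intro v hv
      unfold Inst.Pr0 at hv
      obtain ⟨hv1, -⟩ := mem_filter.1 hv
      obtain ⟨-, d, hd, hfd⟩ := (mem_N I).1 hv1
      have hT : f v ∈ I.T f := T_of_free I h.1 (acc_sub_T I f 0 hd) hfd
      refine mem_filter.2 ⟨mem_vs.2 hT, ?_⟩
      by_contra hne
      obtain ⟨y, hy⟩ := Finset.nonempty_iff_ne_empty.2 hne
      obtain ⟨hy1, hy2⟩ := (mem_S I).1 hy
      exact lemA I h hy1 hy2 hT (i := 0) (F := d) (fun j hj => absurd hj (Nat.not_lt_zero j)) hd hfd
    refine le_trans (Finset.sum_le_sum ?_) (Finset.sum_le_sum_of_subset h4)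
    intro v hv
    unfold Inst.Pr0 at hv
    obtain ⟨-, O, hO⟩ := mem_filter.1 hv
    have h5 : I.p f v ≤ ((I.T f \ I.acc f 0).filter (fun c => I.Free f v c)).card + 1 := by
      unfold Inst.p
      have h6 : (I.T f).filter (fun c => I.Free f v c) ⊆
          (I.T f \ I.acc f 0).filter (fun c => I.Free f v c) ∪ {O} := by
        intro c hc
        obtain ⟨hc1, hc2⟩ := mem_filter.1 hc
        by_cases hc3 : c ∈ I.acc f 0
        · exact mem_union_right _ (mem_singleton.2 (hO c hc3 hc2))
        · exact mem_union_left _ (mem_filter.2 ⟨mem_sdiff.2 ⟨hc1, hc3⟩, hc2⟩)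
      exact le_trans (card_le_card h6) (le_trans (card_union_le _ _) (by simp))
    have h7 : ((I.T f \ I.acc f 0).filter (fun c => I.Free f v c)).card +
        ((I.T f \ I.acc f 0).filter (fun c => ¬ I.Free f v c)).card = (I.T f \ I.acc f 0).card :=
      card_filter_add_card_filter_not _
    omega
  omega

end Pool.MP_f5167d_co.KM
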