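import Pool.Agent.Lib.MP_f5167d_co.KM.Big
import Pool.Agent.Lib.MP_f5167d_co.KM.Small
import Pool.Agent.Lib.MP_f5167d_co.KM.MaxEx

set_option autoImplicit false

namespace Pool.MP_f5167d_co.KM

open Finset Classical

variable {V : Type} [Fintype V] (I : Inst V)

/-- The main part: no counterexample has a near-colouring, given the Hajnal-Szemeredi theorem. -/
theorem main_near
    (hHS : Fintype.card V = I.k * I.q → ∀ C : Finset ℕ, C.card = I.k →
      ∃ f : V → ℕ, (∀ v, f v ∈ C) ∧ (∀ u v, I.G.Adj u v → f u ≠ f v) ∧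
        ∀ c, (univ.filter (fun v => f v = c)).card ≤ I.q)
    (hN : ∃ f P, I.Near f P) : False := by
  obtain ⟨f, P, h, hmax⟩ := exists_maxi I hN
  have hs := (sizes I h).2.2.2.2
  obtain ⟨K, hK⟩ : ∃ K, (I.R f P).card + (I.J f P).card + K + 1 = I.k :=
    ⟨I.k - (I.R f P).card - (I.J f P).card - 1, by omega⟩
  have h1 := (nfull I h hK).1
  rcases Nat.lt_or_ge (I.T f \ I.acc f 0).card K with h2 | h2
  · exact small_case I h hmax hK h2
  · obtain ⟨h3, h4⟩ := big_case I h hmax hK (le_antisymm h1 h2)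
    obtain ⟨g, hg1, hg2, hg3⟩ := hHS h4 I.Pal h3
    refine I.noex g (fun v => ?_) hg2 hg3
    have h5 : I.L v = I.Pal := by
      apply eq_of_subset_of_card_le (L_sub_Pal I v)
      rw [h3, I.hk v]
    rw [h5]
    exact hg1 v

end Pool.MP_f5167d_co.KM
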