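import Pool.Agent.Lib.MP_f5167d_co.KM.Basic

set_option autoImplicit false

namespace Pool.MP_f5167d_co.KM

open Finset Classical

variable {V : Type} [Fintype V] (I : Inst V)

theorem rtg_chain {r : ℕ → ℕ → Prop} {a b : ℕ} (h : Relation.ReflTransGen r a b) :
    ∃ (l : ℕ) (c : ℕ → ℕ), c 0 = a ∧ c l = b ∧ ∀ i < l, r (c i) (c (i + 1)) := by
  induction h with
  | refl => exact ⟨0, fun _ => a, rfl, rfl, fun i hi => absurd hi (Nat.not_lt_zero i)⟩
  | @tail x z _ hr ih =>
    obtain ⟨l, c, h0, hl, hc⟩ := ih
    refine ⟨l + 1, fun n => if n ≤ l then c n else z, ?_, ?_, ?_⟩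
    · simpa using h0
    · simp
    · intro i hi
      have hi' : i ≤ l := by omega
      rcases Nat.lt_or_ge i l with h1 | h1
      · have h2 : i + 1 ≤ l := h1
        simp only [hi', h2, if_true]
        exact hc i h1
      · have h2 : i = l := by omega
        subst h2
        have h3 : ¬ (i + 1 ≤ i) := by omega
        simp only [le_refl, h3, if_true, if_false]
        rw [hl]
        exact hr

theorem chain_cut {r : ℕ → ℕ → Prop} {a b l : ℕ} {c : ℕ → ℕ} (h0 : c 0 = a) (hl : c l = b)
    (hc : ∀ i < l, r (c i) (c (i + 1))) {i j : ℕ} (hij : i < j) (hj : j ≤ l) (he : c i = c j) :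
    ∃ (l' : ℕ) (c' : ℕ → ℕ), l' < l ∧ c' 0 = a ∧ c' l' = b ∧
      ∀ n < l', r (c' n) (c' (n + 1)) := by
  refine ⟨l - (j - i), fun n => if n ≤ i then c n else c (n + (j - i)), by omega, ?_, ?_, ?_⟩
  · simpa using h0
  · by_cases h1 : l - (j - i) ≤ i
    · have h2 : l = j := by omega
      have h3 : l - (j - i) = i := by omega
      simp only [h3, le_refl, if_true]
      rw [he, ← h2, hl]
    · simp only [h1, if_false]
      have h3 : l - (j - i) + (j - i) = l := by omega
      rw [h3, hl]
  · intro n hn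
    by_cases h1 : n ≤ i
    · by_cases h2 : n + 1 ≤ i
      · simp only [h1, h2, if_true]
        exact hc n (by omega)
      · have h3 : n = i := by omega
        subst h3
        simp only [le_refl, h2, if_true, if_false]
        have h4 : n + 1 + (j - n) = j + 1 := by omega
        rw [h4, he]
        exact hc j (by omega)
    · have h2 : ¬ (n + 1 ≤ i) := by omega
      simp only [h1, h2, if_false]
      have h4 : n + 1 + (j - i) = (n + (j - i)) + 1 := by omega
      rw [h4]
      exact hc _ (by omega)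

/-- ROW rtg_path. A simple path from a chain of arcs: take a sequence `c 0 = a, ..., c l = b` of arcs
with `l` minimal (`Nat.find`); if `c i = c j` with `i < j` cut out the part between. -/
theorem rtg_path {f : V → ℕ} (y : V) {a b : ℕ} (h : Relation.ReflTransGen (I.Arc f) a b) :
    ∃ (c : ℕ → ℕ) (v : ℕ → V) (l : ℕ), I.Path f c v l ∧ c 0 = a ∧ c l = b := by
  have hex := rtg_chain h
  obtain ⟨c, h0, hl, hc⟩ := Nat.find_spec hex
  have hmin := fun m (hm : m < Nat.find hex) => Nat.find_min hex hm
  refine ⟨c, fun i => if hi : i < Nat.find hex then Classical.choose (hc i hi) else y,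
    Nat.find hex, ⟨?_, ?_⟩, h0, hl⟩
  · intro i hi
    simp only [hi, dif_pos]
    exact Classical.choose_spec (hc i hi)
  · intro i hi j hj he
    by_contra hne
    rcases Nat.lt_or_gt_of_ne hne with h1 | h1
    · obtain ⟨l', c', hl', g0, gl, gc⟩ := chain_cut h0 hl hc h1 hj he
      exact hmin l' hl' ⟨c', g0, gl, gc⟩
    · obtain ⟨l', c', hl', g0, gl, gc⟩ := chain_cut h0 hl hc h1 hi he.symm
      exact hmin l' hl' ⟨c', g0, gl, gc⟩

end Pool.MP_f5167d_co.KM
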