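import Pool.Agent.Lib.MP_f5167d_co.KM.PathShift
import Pool.Agent.Lib.MP_f5167d_co.KM.RtgPath
import Pool.Agent.Lib.MP_f5167d_co.KM.AccPath

set_option autoImplicit false

namespace Pool.MP_f5167d_co.KM

open Finset Classical

variable {V : Type} [Fintype V] (I : Inst V)

/-- ROW R_disj_T. Otherwise `c` has a level (exists_lev) and acc_path, path_reach give a chain of arcs
from `c` to some `O` of level 0, hence from `P` to `O`; rtg_path and path_shift give `g` with
`|P| = q`, `|O|` one larger and still `≤ q` (`O ∈ acc f 0`, mem_acc_zero), all other classes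
unchanged: contradiction to `I.noex`. (`O ≠ P` because `|P| = q + 1`.) -/
theorem R_disj_T {f : V → ℕ} {P : ℕ} (h : I.Near f P) {c : ℕ} (hc : c ∈ I.R f P) :
    c ∉ I.T f := by
  intro hT
  obtain ⟨i, hi⟩ := exists_lev I hT
  obtain ⟨y, -⟩ := near_nonempty I h
  obtain ⟨c', v', hp, hc0, hlev⟩ := acc_path I h.1 y hi
  have hr1 := path_reach I hp i le_rfl
  have hO := (hlev i le_rfl).1
  rw [Nat.sub_self] at hO
  generalize hOdef : c' i = O at hr1 hO
  rw [hc0] at hr1
  have hr := ((mem_R I).1 hc).2.trans hr1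
  obtain ⟨c2, v2, l, hp2, h0, hl⟩ := rtg_path I y hr
  obtain ⟨g, hg, -, -, hcard⟩ := path_shift I h.1 hp2
  rw [h0, hl] at hcard
  have hOq := ((mem_acc_zero I).1 hO).2
  have hPq := h.2.1
  have hne : O ≠ P := by
    intro he
    rw [he] at hOq
    omega
  refine I.noex g hg.1 hg.2 ?_
  intro d
  have h1 := hcard d
  change (cls g d).card ≤ I.q
  by_cases hdP : d = P
  · subst hdP
    rw [if_pos rfl, if_neg (Ne.symm hne)] at h1
    omega
  · rw [if_neg hdP] at h1
    by_cases hdO : d = O
    · subst hdO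
      rw [if_pos rfl] at h1
      omega
    · rw [if_neg hdO] at h1
      have h2 := h.2.2 d hdP
      omega

end Pool.MP_f5167d_co.KM
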