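import Pool.Agent.Lib.MP_f5167d_co.KM.Upd

set_option autoImplicit false

namespace Pool.MP_f5167d_co.KM

open Finset Classical

variable {V : Type} [Fintype V] (I : Inst V)

/-- ROW upd_free. For a class `d` different from `g w`, `Z`, `g y` (its vertices are the same for `g`
and `upd g y w Z`) freeness is the same for every vertex `x` (also for `w`, `y`). -/
theorem upd_free {g : V → ℕ} {y w : V} {Z : ℕ} {d : ℕ} (hW : d ≠ g w) (hZ : d ≠ Z)
    (hy : d ≠ g y) (x : V) : I.Free (upd g y w Z) x d ↔ I.Free g x d := by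
  have h : ∀ x, upd g y w Z x = d ↔ g x = d := fun x => upd_eq hW hZ hy x
  unfold Inst.Free
  constructor
  · rintro ⟨h1, h2, h3⟩
    exact ⟨h1, fun h4 => h2 ((h x).2 h4), fun z hz h4 => h3 z hz ((h z).2 h4)⟩
  · rintro ⟨h1, h2, h3⟩
    exact ⟨h1, fun h4 => h2 ((h x).1 h4), fun z hz h4 => h3 z hz ((h z).1 h4)⟩

/-- The class of a vertex other than `w`, `y` does not change. -/
theorem upd_otherA {g : V → ℕ} {y w : V} {Z : ℕ} {x : V} (hw : x ≠ w) (hy : x ≠ y) :
    upd g y w Z x = g x := by
  unfold upd
  rw [if_neg hw, if_neg hy]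

/-- ROW upd_free (second part). The layers up to `i` and the movers up to `i - 1` do not change, if
`Lev g (g w) i`, `Z ∉ acc g i`, `g y ∉ T g`, and neither `w` nor `y` is free for a class in
`acc g i`. Induction on `j`: `acc g' 0 = acc g 0` by upd_card (`Z` and `g y` are not open before or
after: `Z` has at least `q` vertices before and not fewer after; `g y = P` has `q + 1` before and at
least `q` after; all other sizes are unchanged). For `j < i` a class `d ∈ acc g j` is `≠ g w`, `≠ Z`,
`≠ g y`, so freeness for `d` is unchanged, and a vertex free for it is neither `w` nor `y`, so it has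
the same class for `g` and `g'`. -/
theorem upd_acc {g : V → ℕ} {P : ℕ} (h : I.Near g P) {y w : V} (hy : g y = P)
    (hs : I.Solo g y w) {Z : ℕ} (hZw : Z ≠ g w) {i : ℕ} (hW : I.Lev g (g w) i)
    (hZ : Z ∉ I.acc g i) (hyT : g y ∉ I.T g)
    (hwf : ∀ d ∈ I.acc g i, ¬ I.Free g w d) :
    (∀ j ≤ i, I.acc (upd g y w Z) j = I.acc g j) ∧
      ∀ j < i, I.N (upd g y w Z) j = I.N g j := by
  have hcol : I.Col g := h.1
  -- freeness for the classes of level `< i`
  have hfree : ∀ j < i, ∀ d ∈ I.acc g j, ∀ x,
      (I.Free (upd g y w Z) x d ↔ I.Free g x d) := by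
    intro j hj d hd x
    refine upd_free I ?_ ?_ ?_ x
    · intro hdw
      exact hW.2 j hj (hdw ▸ hd)
    · intro hdZ
      exact hZ (hdZ ▸ acc_mono I g (le_of_lt hj) hd)
    · intro hdy
      exact hyT (hdy ▸ acc_sub_T I g j hd)
  -- a vertex free for such a class keeps its class
  have hsame : ∀ j < i, ∀ d ∈ I.acc g j, ∀ x, I.Free g x d → upd g y w Z x = g x := by
    intro j hj d hd x hx
    refine upd_otherA ?_ ?_
    · intro hxw
      exact hwf d (acc_mono I g (le_of_lt hj) hd) (hxw ▸ hx)
    · intro hxy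
      exact hyT (T_of_free I hcol (acc_sub_T I g j hd) (hxy ▸ hx))
  have hacc : ∀ j ≤ i, I.acc (upd g y w Z) j = I.acc g j := by
    intro j
    induction j with
    | zero =>
      intro _
      ext d
      rw [mem_acc_zero, mem_acc_zero]
      have hc := upd_card I hcol hs hZw d
      have key : d ∈ I.Pal → ((cls (upd g y w Z) d).card < I.q ↔ (cls g d).card < I.q) := by
        intro hdPal
        by_cases h1 : d = g y
        · rw [if_pos h1] at hc
          have h2 : (cls g d).card = I.q + 1 := by rw [h1, hy]; exact h.2.1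
          constructor
          · intro h3
            by_cases h4 : d = Z
            · rw [if_pos h4] at hc; omega
            · rw [if_neg h4] at hc; omega
          · intro h3
            omega
        · rw [if_neg h1] at hc
          by_cases h4 : d = Z
          · rw [if_pos h4] at hc
            have h5 : d ∉ I.acc g 0 := fun h6 => hZ (h4 ▸ acc_mono I g (Nat.zero_le i) h6)
            rw [mem_acc_zero] at h5
            have h7 : ¬ (cls g d).card < I.q := fun h8 => h5 ⟨hdPal, h8⟩
            omega
          · rw [if_neg h4] at hc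
            omega
      exact ⟨fun h1 => ⟨h1.1, (key h1.1).1 h1.2⟩, fun h1 => ⟨h1.1, (key h1.1).2 h1.2⟩⟩
    | succ j ih =>
      intro hj
      have hji : j < i := by omega
      have ih' := ih (by omega)
      ext c
      rw [mem_acc_succ, mem_acc_succ, ih']
      constructor
      · rintro ⟨h1, h2 | ⟨v, hv, d, hd, hf⟩⟩
        · exact ⟨h1, Or.inl h2⟩
        · have hf' := (hfree j hji d hd v).1 hf
          exact ⟨h1, Or.inr ⟨v, (hsame j hji d hd v hf') ▸ hv, d, hd, hf'⟩⟩
      · rintro ⟨h1, h2 | ⟨v, hv, d, hd, hf⟩⟩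
        · exact ⟨h1, Or.inl h2⟩
        · exact ⟨h1, Or.inr ⟨v, (hsame j hji d hd v hf).trans hv, d, hd,
            (hfree j hji d hd v).2 hf⟩⟩
  refine ⟨hacc, ?_⟩
  intro j hj
  ext v
  rw [mem_N, mem_N, hacc j (le_of_lt hj)]
  constructor
  · rintro ⟨h1, d, hd, hf⟩
    have hf' := (hfree j hj d hd v).1 hf
    rw [hsame j hj d hd v hf'] at h1
    exact ⟨h1, d, hd, hf'⟩
  · rintro ⟨h1, d, hd, hf⟩
    refine ⟨?_, d, hd, (hfree j hj d hd v).2 hf⟩
    rw [hsame j hj d hd v hf]
    exact h1

end Pool.MP_f5167d_co.KM
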