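import Pool.Agent.Lib.MP_f5167d_co.KM.RT
import Pool.Agent.Lib.MP_f5167d_co.KM.Defs2

set_option autoImplicit false

namespace Pool.MP_f5167d_co.KM

open Finset Classical

variable {V : Type} [Fintype V] (I : Inst V)

/-- A set of colours each of which contains a neighbour of `y` has at most `dg` elements. -/
theorem yl_card_le_dg {f : V → ℕ} {y : V} (A X : Finset ℕ) (hAX : A ⊆ X)
    (hA : ∀ c ∈ A, ∃ x, I.G.Adj y x ∧ f x = c) : A.card ≤ I.dg f X y := by
  unfold Inst.dg
  have h1 : A ⊆ (univ.filter (fun x => I.G.Adj y x ∧ f x ∈ X)).image f := by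
    intro c hc
    obtain ⟨x, hx1, hx2⟩ := hA c hc
    rw [mem_image]
    refine ⟨x, ?_, hx2⟩
    rw [mem_filter]
    refine ⟨mem_univ _, hx1, ?_⟩
    rw [hx2]
    exact hAX hc
  exact (card_le_card h1).trans card_image_le

/-- A colour of the list of `y` (`f y` in `R`) outside `R` contains a neighbour of `y`. -/
theorem yl_blocked {f : V → ℕ} {P : ℕ} {y : V} (hy : f y ∈ I.R f P) {c : ℕ}
    (hc : c ∈ I.L y) (hcR : c ∉ I.R f P) : ∃ x, I.G.Adj y x ∧ f x = c := by
  by_contra hno
  apply hcR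
  apply R_closed I hy
  refine ⟨hc, ?_, ?_⟩
  · intro h1
    apply hcR
    rw [← h1]
    exact hy
  · intro w hw h2
    exact hno ⟨w, hw, h2⟩

omit [Fintype V] in
theorem yl_sum_fiber_le {f : V → ℕ} (A : Finset ℕ) (s : Finset V) :
    ∑ c ∈ A, (s.filter (fun x => f x = c)).card ≤ s.card := by
  have h1 : ∑ c ∈ A, (s.filter (fun x => f x = c)).card =
      (A.biUnion (fun c => s.filter (fun x => f x = c))).card := by
    rw [card_biUnion]
    intro c _ d _ hcd
    rw [Function.onFun, disjoint_left]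
    intro x hx hx2
    rw [mem_filter] at hx hx2
    exact hcd (hx.2.symm.trans hx2.2)
  rw [h1]
  apply card_le_card
  intro x hx
  rw [mem_biUnion] at hx
  obtain ⟨c, _, hx2⟩ := hx
  exact (mem_filter.1 hx2).1

theorem yl_dg_T {f : V → ℕ} {y : V} :
    I.dg f (I.T f) y = (I.sg f y).card + (I.ns f y).card := by
  have hd : Disjoint (I.sg f y) (I.ns f y) := by
    rw [disjoint_left]
    intro x hx hx2
    rw [mem_sg] at hx
    rw [mem_ns] at hx2
    exact hx2.2.2 hx.2
  rw [← card_union_of_disjoint hd]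
  unfold Inst.dg
  congr 1
  ext x
  rw [mem_filter, mem_union, mem_sg, mem_ns]
  constructor
  · rintro ⟨_, h1, h2⟩
    by_cases h3 : I.Solo f y x
    · exact Or.inl ⟨h2, h3⟩
    · exact Or.inr ⟨h1, h2, h3⟩
  · rintro (⟨h1, h2⟩ | ⟨h1, h2, _⟩)
    · exact ⟨mem_univ _, h2.2.1, h1⟩
    · exact ⟨mem_univ _, h1, h2⟩

theorem yl_list_split {f : V → ℕ} {P : ℕ} (y : V) :
    I.k ≤ (I.L y ∩ I.T f).card + (I.L y ∩ I.R f P).card + (I.L y ∩ I.J f P).card := by
  have h1 : I.L y ⊆ ((I.L y ∩ I.T f) ∪ (I.L y ∩ I.R f P)) ∪ (I.L y ∩ I.J f P) := by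
    intro c hc
    have hP : c ∈ I.Pal := L_sub_Pal I y hc
    rw [mem_union, mem_union, mem_inter, mem_inter, mem_inter]
    by_cases hT : c ∈ I.T f
    · exact Or.inl (Or.inl ⟨hc, hT⟩)
    · by_cases hR : c ∈ I.R f P
      · exact Or.inl (Or.inr ⟨hc, hR⟩)
      · refine Or.inr ⟨hc, ?_⟩
        unfold Inst.J
        rw [mem_sdiff, mem_sdiff]
        exact ⟨⟨hP, hT⟩, hR⟩
  have h2 := card_le_card h1
  rw [I.hk y] at h2
  have h3 := card_union_le ((I.L y ∩ I.T f) ∪ (I.L y ∩ I.R f P)) (I.L y ∩ I.J f P)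
  have h4 := card_union_le (I.L y ∩ I.T f) (I.L y ∩ I.R f P)
  omega

theorem yl_dg_sum_lt {f : V → ℕ} {P : ℕ} (h : I.Near f P) (y : V) :
    I.dg f (I.R f P) y + I.dg f (I.T f) y + I.dg f (I.J f P) y < I.k := by
  have h0 := I.hdeg y
  refine lt_of_le_of_lt ?_ h0
  unfold Inst.dg
  have hRT : Disjoint (univ.filter (fun x => I.G.Adj y x ∧ f x ∈ I.R f P))
      (univ.filter (fun x => I.G.Adj y x ∧ f x ∈ I.T f)) := by
    rw [disjoint_left]
    intro x hx hx2
    rw [mem_filter] at hx hx2
    exact R_disj_T I h hx.2.2 hx2.2.2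
  have hRTJ : Disjoint ((univ.filter (fun x => I.G.Adj y x ∧ f x ∈ I.R f P)) ∪
      (univ.filter (fun x => I.G.Adj y x ∧ f x ∈ I.T f)))
      (univ.filter (fun x => I.G.Adj y x ∧ f x ∈ I.J f P)) := by
    rw [disjoint_left]
    intro x hx hx2
    rw [mem_union, mem_filter, mem_filter] at hx
    rw [mem_filter] at hx2
    have h3 := hx2.2.2
    unfold Inst.J at h3
    rw [mem_sdiff, mem_sdiff] at h3
    rcases hx with hx | hx
    · exact h3.2 hx.2.2
    · exact h3.1.2 hx.2.2
  rw [← card_union_of_disjoint hRT, ← card_union_of_disjoint hRTJ]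
  apply card_le_card
  intro x hx
  rw [mem_union, mem_union, mem_filter, mem_filter, mem_filter] at hx
  rw [mem_filter]
  rcases hx with (hx | hx) | hx
  · exact ⟨mem_univ _, hx.2.1⟩
  · exact ⟨mem_univ _, hx.2.1⟩
  · exact ⟨mem_univ _, hx.2.1⟩

/-- ROW y_local. Put `a = (L y ∩ T).card`.
(1) the list of `y` is split by `T`, `R`, `J` (colours of the palette);
(2) every class of `L y ∩ T` contains a neighbour of `y` (otherwise it is free for `y`, then it is in
`R` by R_closed, against R_disj_T); classes with exactly one neighbour `w` are in bijection with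
`sg f y`, the others have at least two neighbours, which are in `ns f y`;
(3) the degree of `y` is `dg R + dg T + dg J ≤ k - 1`, `dg T = sg + ns` (4), `dg J` is at least the
number of colours of `L y ∩ J` (each is blocked), and `k = |L y ∩ R| + a + |L y ∩ J|`. -/
theorem y_local {f : V → ℕ} {P : ℕ} (h : I.Near f P) {y : V} (hy : f y ∈ I.R f P) :
    I.k ≤ (I.R f P).card + (I.J f P).card + (I.L y ∩ I.T f).card ∧
    2 * (I.L y ∩ I.T f).card ≤ (I.ns f y).card + 2 * (I.sg f y).card ∧
    (1 + I.dg f (I.R f P) y) + (I.sg f y).card + (I.ns f y).card ≤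
      (I.R f P).card + (I.L y ∩ I.T f).card ∧
    I.dg f (I.T f) y = (I.sg f y).card + (I.ns f y).card := by
  have hsplit := yl_list_split I (f := f) (P := P) y
  have hR : (I.L y ∩ I.R f P).card ≤ (I.R f P).card := card_le_card inter_subset_right
  have hJ : (I.L y ∩ I.J f P).card ≤ (I.J f P).card := card_le_card inter_subset_right
  have hdgT := yl_dg_T I (f := f) (y := y)
  refine ⟨by omega, ?_, ?_, hdgT⟩
  · -- (2)
    have key : ∀ c ∈ I.L y ∩ I.T f, 2 ≤ ((I.ns f y).filter (fun x => f x = c)).card +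
        2 * ((I.sg f y).filter (fun x => f x = c)).card := by
      intro c hc
      rw [mem_inter] at hc
      have hcR : c ∉ I.R f P := fun h1 => R_disj_T I h h1 hc.2
      obtain ⟨x, hx1, hx2⟩ := yl_blocked I hy hc.1 hcR
      by_cases hs : I.Solo f y x
      · have h1 : x ∈ (I.sg f y).filter (fun x => f x = c) := by
          rw [mem_filter, mem_sg]
          exact ⟨⟨by rw [hx2]; exact hc.2, hs⟩, hx2⟩
        have h2 : 0 < ((I.sg f y).filter (fun x => f x = c)).card := card_pos.2 ⟨x, h1⟩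
        omega
      · have hex : ∃ z, I.G.Adj y z ∧ f z = f x ∧ z ≠ x := by
          by_contra hno
          apply hs
          refine ⟨by rw [hx2]; exact hc.1, hx1, ?_⟩
          intro z hz1 hz2
          by_contra hne
          exact hno ⟨z, hz1, hz2, hne⟩
        obtain ⟨z, hz1, hz2, hzx⟩ := hex
        have hzs : ¬ I.Solo f y z := by
          intro h1
          exact hzx (h1.2.2 x hx1 hz2.symm).symm
        have h1 : x ∈ (I.ns f y).filter (fun x => f x = c) := by
          rw [mem_filter, mem_ns]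
          exact ⟨⟨hx1, by rw [hx2]; exact hc.2, hs⟩, hx2⟩
        have h2 : z ∈ (I.ns f y).filter (fun x => f x = c) := by
          rw [mem_filter, mem_ns]
          exact ⟨⟨hz1, by rw [hz2, hx2]; exact hc.2, hzs⟩, by rw [hz2, hx2]⟩
        have h3 : 1 < ((I.ns f y).filter (fun x => f x = c)).card :=
          one_lt_card.2 ⟨z, h2, x, h1, hzx⟩
        omega
    have h1 : ∑ c ∈ I.L y ∩ I.T f, 2 ≤ ∑ c ∈ I.L y ∩ I.T f,
        (((I.ns f y).filter (fun x => f x = c)).card +
        2 * ((I.sg f y).filter (fun x => f x = c)).card) := sum_le_sum key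
    rw [sum_const, smul_eq_mul, sum_add_distrib, ← mul_sum] at h1
    have h2 := yl_sum_fiber_le (f := f) (I.L y ∩ I.T f) (I.ns f y)
    have h3 := yl_sum_fiber_le (f := f) (I.L y ∩ I.T f) (I.sg f y)
    omega
  · -- (3)
    have hdeg := yl_dg_sum_lt I h y
    have hJd : (I.L y ∩ I.J f P).card ≤ I.dg f (I.J f P) y := by
      apply yl_card_le_dg I
      · exact inter_subset_right
      · intro c hc
        rw [mem_inter] at hc
        apply yl_blocked I hy hc.1
        have h3 := hc.2
        unfold Inst.J at h3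
        rw [mem_sdiff] at h3
        exact h3.2
    omega

end Pool.MP_f5167d_co.KM
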