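import Pool.Agent.Lib.MP_f5167d_co.KM.LemB
import Pool.Agent.Lib.MP_f5167d_co.KM.Disj
import Pool.Agent.Lib.MP_f5167d_co.KM.YLocal
import Pool.Agent.Lib.MP_f5167d_co.KM.Ineq

set_option autoImplicit false

namespace Pool.MP_f5167d_co.KM

open Finset Classical

variable {V : Type} [Fintype V] (I : Inst V)

/-- ROW y_final. Everything for one `y` in a class of `R`: apply key_ineq with `σ = sg f y`,
`m w = ((Priv f (lv (f w)) (f w)).filter (Adj y)).card`, `u = (R f P).card` (`≥ 1` by P_mem_R),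
`a = (L y ∩ T f).card`, `D = 1 + dg f (R f P) y`, `N = (ns f y).card` (y_local, sum_priv_le; `lv` by
choice from exists_lev), and lemB: `(S f P w).card ≤ D + m w`, where `S f P w` is not empty (`y` is in
it). -/
theorem y_final {f : V → ℕ} {P : ℕ} (h : I.Near f P) (hmax : I.Maxi f) {K : ℕ}
    (hK : (I.R f P).card + (I.J f P).card + K + 1 = I.k) {y : V} (hy : f y ∈ I.R f P) :
    ((K : ℚ) + 1) * (((I.R f P).card : ℚ) + K) / ((I.R f P).card : ℚ) ≤
      (I.dg f (I.T f) y : ℚ) + ∑ w ∈ I.sg f y, (K : ℚ) / ((I.S f P w).card : ℚ) := by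
  have hlv0 : ∀ c : ℕ, ∃ i : ℕ, c ∈ I.T f → I.Lev f c i := by
    intro c
    by_cases hc : c ∈ I.T f
    · obtain ⟨i, hi⟩ := exists_lev I hc
      exact ⟨i, fun _ => hi⟩
    · exact ⟨0, fun h' => absurd h' hc⟩
  choose lv hlv using hlv0
  obtain ⟨h1, h2, h3, h4⟩ := y_local I h hy
  have hsum := sum_priv_le I h hy lv (fun c hc => hlv c hc)
  have hu : 1 ≤ (I.R f P).card := Finset.card_pos.2 ⟨P, P_mem_R I h⟩
  have key := key_ineq (I.sg f y)
    (fun w => ((I.Priv f (lv (f w)) (f w)).filter (fun v => I.G.Adj y v)).card)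
    (I.R f P).card K (I.L y ∩ I.T f).card (1 + I.dg f (I.R f P) y) (I.ns f y).card hu
    (by omega) (by omega) h2 h3 hsum
  refine key.trans ?_
  rw [h4]
  push_cast
  refine add_le_add le_rfl ?_
  refine Finset.sum_le_sum ?_
  intro w hw
  rw [mem_sg] at hw
  have hB := lemB I h hmax hy hw.2 (hlv (f w) hw.1)
  have hpos : 0 < (I.S f P w).card := Finset.card_pos.2 ⟨y, (mem_S I).2 ⟨hy, hw.2⟩⟩
  have hpos' : (0 : ℚ) < ((I.S f P w).card : ℚ) := by exact_mod_cast hpos
  have hB' : ((I.S f P w).card : ℚ) ≤ (1 + (I.dg f (I.R f P) y : ℚ)) +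
      (((I.Priv f (lv (f w)) (f w)).filter (fun v => I.G.Adj y v)).card : ℚ) := by
    exact_mod_cast hB
  exact div_le_div_of_nonneg_left (by positivity) hpos' hB'

end Pool.MP_f5167d_co.KM
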